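import Mathlib

set_option autoImplicit false

/-!
# The hypothesis

A statement about a linearly ordered set `W` which implies that `W` has the order type `ω₁`, that
there is a ladder system on `W` which catches all pairs of uncountable subsets of `W`, and that all
families of `ℵ₁` bounded functions on `ℕ` are avoided by a single one.
-/

namespace Pool.Agent.V7H73.DW

/-- Ladder system on `W`: all elements of `D δ` are smaller than `δ`, and every proper initial
segment of `D δ` is finite. -/
def IsLadder {W : Type} [LinearOrder W] (D : W → Set W) : Prop :=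
  (∀ δ : W, ∀ d : W, d ∈ D δ → d < δ) ∧
    ∀ δ β : W, β < δ → ∃ S : Finset W, ∀ d : W, d ∈ D δ → d ≤ β → d ∈ S

/-- `A` is cofinal in `W`. -/
def Cof {W : Type} [LinearOrder W] (A : Set W) : Prop :=
  ∀ β : W, ∃ a : W, a ∈ A ∧ β < a

/-- The ladder `D δ` meets `A` cofinally in `δ`. -/
def CatchAt {W : Type} [LinearOrder W] (D : W → Set W) (A : Set W) (δ : W) : Prop :=
  ∀ β : W, β < δ → ∃ a : W, a ∈ A ∧ a ∈ D δ ∧ β < a

/-- For any two cofinal subsets `A`, `B` of `W` there is `δ`, not the least element of `W`, such that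
the ladder `D δ` meets `A` and `B` cofinally in `δ`. -/
def Catches {W : Type} [LinearOrder W] (D : W → Set W) : Prop :=
  ∀ A B : Set W, Cof A → Cof B → ∃ δ : W, (∃ β : W, β < δ) ∧ CatchAt D A δ ∧ CatchAt D B δ

/-- Every nonempty subset of `W` has a least element. -/
def WellOrd (W : Type) [LinearOrder W] : Prop :=
  ∀ A : Set W, (∃ a : W, a ∈ A) → ∃ a : W, a ∈ A ∧ ∀ x : W, x ∈ A → a ≤ x

/-- Every proper initial segment of `W` is countable. -/
def CtbleInit (W : Type) [LinearOrder W] : Prop :=
  ∀ w : W, ∃ e : ℕ → W, ∀ x : W, x < w → ∃ n : ℕ, e n = x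

/-- Every sequence in `W` is bounded. -/
def SeqBdd (W : Type) [LinearOrder W] : Prop :=
  ∀ f : ℕ → W, ∃ w : W, ∀ n : ℕ, f n < w

/-- Every family, indexed by `W`, of functions from `ℕ` to `ℕ` is eventually avoided by a function
`h` with `h n < 2 ^ n` for all `n`. -/
def Avoid (W : Type) : Prop :=
  ∀ G : W → ℕ → ℕ, ∃ h : ℕ → ℕ, (∀ n : ℕ, h n < 2 ^ n) ∧
    ∀ α : W, ∃ m : ℕ, ∀ n : ℕ, m ≤ n → G α n ≠ h n

/-- The hypothesis: `W` is a nonempty well-ordered set all of whose initial segments are countable
and all of whose countable subsets are bounded (that is, it has the order type `ω₁`), there is a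
ladder system on `W` which catches all pairs of cofinal subsets, and families of functions indexed
by `W` can be avoided. -/
def Hypothesis (W : Type) [LinearOrder W] : Prop :=
  Nonempty W ∧ WellOrd W ∧ CtbleInit W ∧ SeqBdd W ∧
    (∃ D : W → Set W, IsLadder D ∧ Catches D) ∧ Avoid W

end Pool.Agent.V7H73.DW
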