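import Mathlib
import Pool.Agent.V7H73.DW.Hyp

set_option autoImplicit false

/-!
# The space

A topology on `W × ℕ` made from a ladder system. The points `(δ, 0)` are isolated; the neighbourhood
`N β (δ, n + 1)` consists of `(δ, n + 1)` and the neighbourhoods `N e (d, n)` of the points `(d, n)`,
where `e < d` are consecutive elements of `D δ` with `β ≤ e`.
-/

namespace Pool.Agent.V7H73.DW

open Set Filter Topology

variable {W : Type} [LinearOrder W]

/-- `e < d` are consecutive elements of `D δ`. -/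
def Consec (D : W → Set W) (δ e d : W) : Prop :=
  e ∈ D δ ∧ d ∈ D δ ∧ e < d ∧ ∀ x, x ∈ D δ → ¬ (e < x ∧ x < d)

/-- `Nb D β x z`: the point `z` lies in the basic neighbourhood of `x` with the lower bound `β`. -/
inductive Nb (D : W → Set W) : W → W × ℕ → W × ℕ → Prop
  | self (β : W) (x : W × ℕ) : Nb D β x x
  | step (β δ e d : W) (n : ℕ) (z : W × ℕ) : β ≤ e → Consec D δ e d → Nb D e (d, n) z →
      Nb D β (δ, n + 1) z

variable {D : W → Set W}

theorem Nb.range (hD : IsLadder D) {β : W} {x z : W × ℕ} (h : Nb D β x z) :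
    z = x ∨ (β < z.1 ∧ z.1 < x.1) := by
  induction h with
  | self β x => exact Or.inl rfl
  | step β δ e d n z h1 h2 h3 ih =>
    right
    have hd : d < δ := hD.1 δ d h2.2.1
    rcases ih with rfl | ⟨h4, h5⟩
    · exact ⟨h1.trans_lt h2.2.2.1, hd⟩
    · exact ⟨h1.trans_lt h4, h5.trans hd⟩

theorem Nb.level {β : W} {x z : W × ℕ} (h : Nb D β x z) :
    z = x ∨ z.2 < x.2 := by
  induction h with
  | self β x => exact Or.inl rfl
  | step β δ e d n z h1 h2 h3 ih =>
    right
    rcases ih with rfl | h4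
    · exact Nat.lt_succ_self n
    · exact h4.trans (Nat.lt_succ_self n)

theorem Nb.mono {β β' : W} {x z : W × ℕ} (hβ : β ≤ β') (h : Nb D β' x z) : Nb D β x z := by
  cases h with
  | self => exact Nb.self _ _
  | step _ δ e d n z h1 h2 h3 => exact Nb.step _ _ _ _ _ _ (hβ.trans h1) h2 h3

theorem Nb.open {β : W} {x z : W × ℕ} (h : Nb D β x z) (hβ : β < x.1) :
    ∃ γ < z.1, ∀ y, Nb D γ z y → Nb D β x y := by
  induction h with
  | self β x => exact ⟨β, hβ, fun y hy => hy⟩
  | step β δ e d n z h1 h2 h3 ih =>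
    obtain ⟨γ, hγ, h⟩ := ih h2.2.2.1
    exact ⟨γ, hγ, fun y hy => Nb.step _ _ _ _ _ _ h1 h2 (h y hy)⟩

/-- Points of the same height have disjoint neighbourhoods. -/
theorem Nb.disj (hwf : WellFounded ((· < ·) : W → W → Prop)) (hD : IsLadder D) :
    ∀ (δ β γ : W) (n m : ℕ) (z : W × ℕ), n ≠ m → Nb D β (δ, n) z → Nb D γ (δ, m) z → False := by
  intro δ
  induction δ using hwf.induction with
  | h δ ih =>
    intro β γ n m z hnm h1 h2
    have key : ∀ (n m : ℕ) (β γ : W), n ≠ m → Nb D γ (δ, m) (δ, n) → False := by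
      intro n m β γ hnm h
      rcases h.range hD with h | ⟨_, h⟩
      · exact hnm (by simpa using congrArg Prod.snd h)
      · exact lt_irrefl _ h
    cases h1 with
    | self => exact key n m β γ hnm h2
    | step _ _ e d n _ h3 h4 h5 =>
      cases h2 with
      | self =>
        exact key m (n + 1) γ β hnm.symm (Nb.step _ _ _ _ _ _ h3 h4 h5)
      | step _ _ e' d' m _ h3' h4' h5' =>
        have r1 : e < z.1 ∧ z.1 ≤ d := by
          rcases h5.range hD with h | h
          · subst h; exact ⟨h4.2.2.1, le_rfl⟩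
          · exact ⟨h.1, h.2.le⟩
        have r2 : e' < z.1 ∧ z.1 ≤ d' := by
          rcases h5'.range hD with h | h
          · subst h; exact ⟨h4'.2.2.1, le_rfl⟩
          · exact ⟨h.1, h.2.le⟩
        have hd : d = d' := by
          rcases lt_trichotomy d d' with h | h | h
          · exact absurd ⟨r2.1.trans_le r1.2, h⟩ (h4'.2.2.2 d h4.2.1)
          · exact h
          · exact absurd ⟨r1.1.trans_le r2.2, h⟩ (h4.2.2.2 d' h4'.2.1)
        subst hd
        have hn : n ≠ m := fun h => hnm (by rw [h])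
        exact ih d (hD.1 δ d h4.2.1) e e' n m z hn h5 h5'

theorem exists_bound {S : Finset W} {b : W} (hb : ∃ γ, γ < b) (p : W → W → Prop)
    (hp : ∀ e γ γ', γ ≤ γ' → p e γ → p e γ') (h : ∀ e ∈ S, ∃ γ < b, p e γ) :
    ∃ γ < b, ∀ e ∈ S, p e γ := by
  classical
  induction S using Finset.induction_on with
  | empty => obtain ⟨γ, hγ⟩ := hb; exact ⟨γ, hγ, fun e he => absurd he (Finset.notMem_empty e)⟩
  | insert a s _ ih =>
    obtain ⟨γ, hγ, h1⟩ := ih fun e he => h e (Finset.mem_insert_of_mem he)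
    obtain ⟨γ', hγ', h2⟩ := h a (Finset.mem_insert_self a s)
    refine ⟨max γ γ', max_lt hγ hγ', ?_⟩
    intro e he
    rcases Finset.mem_insert.1 he with rfl | he
    · exact hp _ _ _ (le_max_right _ _) h2
    · exact hp _ _ _ (le_max_left _ _) (h1 e he)

/-- The basic neighbourhoods are closed. -/
theorem Nb.closed (hwf : WellFounded ((· < ·) : W → W → Prop)) (hD : IsLadder D) :
    ∀ (δ β : W) (n : ℕ) (y : W × ℕ), β < δ → ¬ Nb D β (δ, n) y → (∃ γ, γ < y.1) →
      ∃ γ < y.1, ∀ z, Nb D γ y z → ¬ Nb D β (δ, n) z := by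
  intro δ
  induction δ using hwf.induction with
  | h δ ih =>
    intro β n y hβ hy hex
    rcases lt_trichotomy y.1 δ with hlt | heq | hgt
    · -- `y` lower
      rcases n with _ | n
      · refine ⟨hex.choose, hex.choose_spec, ?_⟩
        intro z hz hz'
        cases hz' with
        | self =>
          rcases hz.range hD with h | h
          · rw [← h] at hlt; exact lt_irrefl _ hlt
          · exact lt_asymm hlt h.2
      · obtain ⟨S, hS⟩ := hD.2 δ y.1 hlt
        obtain ⟨γ, hγ, h1⟩ := exists_bound (S := S) hex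
          (fun e γ => ∀ d, β ≤ e → Consec D δ e d → ∀ z, Nb D γ y z → ¬ Nb D e (d, n) z)
          (fun e γ γ' hle h d h2 h3 z hz => h d h2 h3 z (hz.mono hle)) (by
            intro e _
            by_cases hd : ∃ d, β ≤ e ∧ Consec D δ e d
            · obtain ⟨d, h2, h3⟩ := hd
              obtain ⟨γ, hγ, h4⟩ := ih d (hD.1 δ d h3.2.1) e n y h3.2.2.1
                (fun h => hy (Nb.step _ _ _ _ _ _ h2 h3 h)) hex
              refine ⟨γ, hγ, ?_⟩
              intro d' h2' h3' z hz
              have hdd : d' = d := by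
                rcases lt_trichotomy d d' with h | h | h
                · exact absurd ⟨h3.2.2.1, h⟩ (h3'.2.2.2 d h3.2.1)
                · exact h.symm
                · exact absurd ⟨h3'.2.2.1, h⟩ (h3.2.2.2 d' h3'.2.1)
              subst hdd
              exact h4 z hz
            · refine ⟨hex.choose, hex.choose_spec, ?_⟩
              intro d h2 h3
              exact absurd ⟨d, h2, h3⟩ hd)
        refine ⟨γ, hγ, ?_⟩
        intro z hz hz'
        have hz1 : z.1 ≤ y.1 := by
          rcases hz.range hD with h | h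
          · rw [h]
          · exact h.2.le
        cases hz' with
        | self => exact lt_irrefl _ (hz1.trans_lt hlt)
        | step _ _ e d _ _ h2 h3 h4 =>
          have hez : e < z.1 := by
            rcases h4.range hD with h | h
            · rw [h]; exact h3.2.2.1
            · exact h.1
          have heS : e ∈ S := hS e h3.1 (hez.le.trans hz1)
          exact h1 e heS d h2 h3 z hz h4
    · -- same height
      obtain ⟨δ', m⟩ := y
      have heq' : δ' = δ := heq
      subst heq'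
      refine ⟨β, hβ, ?_⟩
      intro z hz hz'
      by_cases hmn : m = n
      · subst hmn; exact hy (Nb.self _ _)
      · exact Nb.disj hwf hD _ _ _ _ _ z hmn hz hz'
    · refine ⟨δ, hgt, ?_⟩
      intro z hz hz'
      have hz1 : z.1 ≤ δ := by
        rcases hz'.range hD with h | h
        · rw [h]
        · exact h.2.le
      rcases hz.range hD with h | h
      · rw [h] at hz1; exact lt_irrefl _ (hz1.trans_lt hgt)
      · exact lt_irrefl _ (hz1.trans_lt h.1)

/-- The topology on `W × ℕ`. -/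
@[reducible] def top (D : W → Set W) : TopologicalSpace (W × ℕ) where
  IsOpen U := ∀ x ∈ U, (∃ β, β < x.1) → ∃ β < x.1, ∀ z, Nb D β x z → z ∈ U
  isOpen_univ := fun x _ ⟨β, hβ⟩ => ⟨β, hβ, fun _ _ => trivial⟩
  isOpen_inter := by
    intro U V hU hV x hx hex
    obtain ⟨β, hβ, h1⟩ := hU x hx.1 hex
    obtain ⟨γ, hγ, h2⟩ := hV x hx.2 hex
    exact ⟨max β γ, max_lt hβ hγ, fun z hz =>
      ⟨h1 z (hz.mono (le_max_left _ _)), h2 z (hz.mono (le_max_right _ _))⟩⟩
  isOpen_sUnion := by
    intro 𝒰 h𝒰 x hx hex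
    obtain ⟨U, hU, hxU⟩ := hx
    obtain ⟨β, hβ, h1⟩ := h𝒰 U hU x hxU hex
    exact ⟨β, hβ, fun z hz => ⟨U, hU, h1 z hz⟩⟩

/-- The space. -/
def Sp (D : W → Set W) : Type := (fun _ : W → Set W => W × ℕ) D

instance (D : W → Set W) : TopologicalSpace (Sp D) := top D

theorem isOpen_iff {U : Set (Sp D)} : IsOpen U ↔
    ∀ x : W × ℕ, x ∈ U → (∃ β, β < x.1) → ∃ β < x.1, ∀ z : W × ℕ, Nb D β x z → z ∈ U := Iff.rfl

/-- The basic neighbourhood. -/
def N (D : W → Set W) (β : W) (x : W × ℕ) : Set (Sp D) := {z | Nb D β x z}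

theorem isOpen_N {β : W} {x : W × ℕ} (hβ : β < x.1) : IsOpen (N D β x) := by
  rw [isOpen_iff]
  intro z hz _
  obtain ⟨γ, hγ, h⟩ := Nb.open hz hβ
  exact ⟨γ, hγ, fun y hy => h y hy⟩

theorem isClosed_N (hwf : WellFounded ((· < ·) : W → W → Prop)) (hD : IsLadder D) {β : W}
    {x : W × ℕ} (hβ : β < x.1) : IsClosed (N D β x) := by
  rw [← isOpen_compl_iff, isOpen_iff]
  intro y hy hex
  obtain ⟨γ, hγ, h⟩ := Nb.closed hwf hD x.1 β x.2 y hβ hy hex
  exact ⟨γ, hγ, fun z hz => h z hz⟩

theorem mem_N {β : W} {x : W × ℕ} : x ∈ N D β x := Nb.self _ _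

/-- points without smaller heights are isolated -/
theorem isOpen_bot {x : W × ℕ} (h : ¬ ∃ β, β < x.1) : IsOpen ({x} : Set (Sp D)) := by
  rw [isOpen_iff]
  intro y hy hex
  have hy' : y = x := hy
  subst hy'
  exact absurd hex h

theorem isClosed_pt (hD : IsLadder D) (x : W × ℕ) : IsClosed ({x} : Set (Sp D)) := by
  rw [← isOpen_compl_iff, isOpen_iff]
  intro y hy ⟨γ, hγ⟩
  have hyx : y ≠ x := hy
  by_cases hlt : x.1 < y.1
  · refine ⟨x.1, hlt, fun z hz hzx => ?_⟩
    have hzx' : z = x := hzx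
    subst hzx'
    rcases hz.range hD with h | h
    · exact hyx h.symm
    · exact lt_irrefl _ h.1
  · refine ⟨γ, hγ, fun z hz hzx => ?_⟩
    have hzx' : z = x := hzx
    subst hzx'
    rcases hz.range hD with h | h
    · exact hyx h.symm
    · exact hlt h.2

/-- Each point of an open set has a clopen neighbourhood inside it. -/
theorem exists_clopen (hwf : WellFounded ((· < ·) : W → W → Prop)) (hD : IsLadder D)
    {U : Set (Sp D)} (hU : IsOpen U) {x : W × ℕ} (hx : x ∈ U) :
    ∃ V : Set (Sp D), IsOpen V ∧ IsClosed V ∧ x ∈ V ∧ V ⊆ U := by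
  by_cases hex : ∃ β, β < x.1
  · obtain ⟨β, hβ, h⟩ := isOpen_iff.1 hU x hx hex
    exact ⟨N D β x, isOpen_N hβ, isClosed_N hwf hD hβ, mem_N, fun z hz => h z hz⟩
  · exact ⟨{x}, isOpen_bot hex, isClosed_pt hD x, rfl, by
      rintro z rfl; exact hx⟩

/-- The points of height at most `γ`. -/
def Low (D : W → Set W) (γ : W) : Set (Sp D) := {x : W × ℕ | x.1 ≤ γ}

theorem isOpen_Low (hD : IsLadder D) (γ : W) : IsOpen (Low D γ) := by
  rw [isOpen_iff]
  rintro x hx ⟨β, hβ⟩
  refine ⟨β, hβ, fun z hz => ?_⟩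
  rcases hz.range hD with h | h
  · rw [h]; exact hx
  · exact h.2.le.trans hx

theorem isClosed_Low (hD : IsLadder D) (γ : W) : IsClosed (Low D γ) := by
  rw [← isOpen_compl_iff, isOpen_iff]
  rintro x hx -
  have hx' : γ < x.1 := not_le.1 hx
  refine ⟨γ, hx', fun z hz hz' => ?_⟩
  rcases hz.range hD with h | h
  · rw [h] at hz'; exact hx hz'
  · exact absurd (h.1.trans_le hz') (lt_irrefl _)

/-- The points of level at least `n`. -/
def High (D : W → Set W) (n : ℕ) : Set (Sp D) := {x : W × ℕ | n ≤ x.2}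

theorem isClosed_High (n : ℕ) : IsClosed (High D n) := by
  rw [← isOpen_compl_iff, isOpen_iff]
  rintro x hx ⟨β, hβ⟩
  refine ⟨β, hβ, fun z hz hz' => hx ?_⟩
  rcases hz.level with h | h
  · rw [← h]; exact hz'
  · exact (show n ≤ z.2 from hz').trans h.le

end Pool.Agent.V7H73.DW
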