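import Mathlib
import Pool.Agent.V7H73.DW.Space

set_option autoImplicit false

/-!
# The space is a Dowker space
-/

namespace Pool.Agent.V7H73.DW

open Set Filter Topology

/-- A space is countably paracompact if every countable open cover has a locally finite open
refinement (which is a cover). -/
def CountablyParacompact (X : Type) [TopologicalSpace X] : Prop :=
  ∀ U : ℕ → Set X, (∀ n, IsOpen (U n)) → (⋃ n, U n) = univ →
    ∃ (ι : Type) (V : ι → Set X), (∀ i, IsOpen (V i)) ∧ (⋃ i, V i) = univ ∧ LocallyFinite V ∧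
      ∀ i, ∃ n, V i ⊆ U n

/-- A Dowker space is a normal `T₁` space which is not countably paracompact. -/
def IsDowker (X : Type) [TopologicalSpace X] : Prop :=
  T1Space X ∧ NormalSpace X ∧ ¬ CountablyParacompact X

variable {W : Type} [LinearOrder W] {D : W → Set W}

theorem wf_of_wellOrd (h : WellOrd W) : WellFounded ((· < ·) : W → W → Prop) := by
  rw [WellFounded.wellFounded_iff_has_min]
  intro s hs
  obtain ⟨a, ha, hmin⟩ := h s hs
  exact ⟨a, ha, fun x hx => not_lt.2 (hmin x hx)⟩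

theorem set_bdd (hW : Nonempty W) (hb : SeqBdd W) {A : Set W} (hA : A.Countable) :
    ∃ w : W, ∀ a ∈ A, a < w := by
  rcases A.eq_empty_or_nonempty with rfl | hne
  · obtain ⟨w⟩ := hW
    exact ⟨w, fun a ha => absurd ha (notMem_empty a)⟩
  · obtain ⟨f, rfl⟩ := hA.exists_eq_range hne
    obtain ⟨w, hw⟩ := hb f
    exact ⟨w, by rintro _ ⟨n, rfl⟩; exact hw n⟩

theorem init_countable (hc : CtbleInit W) (w : W) : (Iio w).Countable := by
  obtain ⟨e, he⟩ := hc w
  refine (countable_range e).mono ?_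
  intro x hx
  obtain ⟨n, hn⟩ := he x hx
  exact ⟨n, hn⟩

theorem initc_countable (hc : CtbleInit W) (w : W) : (Iic w).Countable := by
  have : Iic w = Iio w ∪ {w} := by ext x; simp [le_iff_lt_or_eq]
  rw [this]
  exact (init_countable hc w).union (countable_singleton w)

theorem low_countable (hc : CtbleInit W) (γ : W) : (Low D γ).Countable := by
  have : (Low D γ) ⊆ (Iic γ) ×ˢ (univ : Set ℕ) := fun x hx => ⟨hx, trivial⟩
  exact ((initc_countable hc γ).prod countable_univ).mono this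

/-- the section of a set at level `n` -/
def sec (F : Set (Sp D)) (n : ℕ) : Set W := {δ | (show Sp D from (δ, n)) ∈ F}

theorem exists_consec (hD : IsLadder D) {δ β a e₀ : W} (hβ : β < e₀) (he₀ : e₀ ∈ D δ) (ha : a ∈ D δ)
    (h : e₀ < a) : ∃ e, β ≤ e ∧ Consec D δ e a := by
  classical
  obtain ⟨S, hS⟩ := hD.2 δ a (hD.1 δ a ha)
  let T : Finset W := S.filter fun d => d ∈ D δ ∧ d < a
  have hT : T.Nonempty := ⟨e₀, by simp [T, he₀, h, hS e₀ he₀ h.le]⟩
  have hmax := T.max'_mem hT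
  set e := T.max' hT with he
  have hm : e ∈ S ∧ e ∈ D δ ∧ e < a := by simpa [T] using hmax
  refine ⟨e, hβ.le.trans (T.le_max' e₀ (by simp [T, he₀, h, hS e₀ he₀ h.le])), hm.2.1, ha, hm.2.2, ?_⟩
  rintro x hx ⟨h1, h2⟩
  have : x ≤ e := T.le_max' x (by simp [T, hx, h2, hS x hx h2.le])
  exact absurd (h1.trans_le this) (lt_irrefl _)

/-- If the ladder at `δ` catches the `n`-th section of the closed set `F`, then `(δ, n + 1) ∈ F`. -/
theorem mem_of_catch (hD : IsLadder D) {F : Set (Sp D)} (hF : IsClosed F) {n : ℕ} {δ : W}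
    (hex : ∃ β, β < δ) (h : CatchAt D (sec F n) δ) : (show Sp D from (δ, n + 1)) ∈ F := by
  by_contra hnot
  have ho := isOpen_iff.1 hF.isOpen_compl (δ, n + 1) hnot hex
  obtain ⟨β, hβ, hN⟩ := ho
  obtain ⟨e₀, _, he₀, hβe⟩ := h β hβ
  obtain ⟨a, haF, ha, hea⟩ := h e₀ (hD.1 δ e₀ he₀)
  obtain ⟨e, hβe', hcon⟩ := exists_consec hD hβe he₀ ha hea
  exact hN (a, n) (Nb.step _ _ _ _ _ _ hβe' hcon (Nb.self _ _)) haF

/-- If some section of a closed set is cofinal, the next one is cofinal. -/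
theorem cof_succ (hD : IsLadder D) (hC : Catches D) {F : Set (Sp D)} (hF : IsClosed F) {n : ℕ}
    (h : Cof (sec F n)) : Cof (sec F (n + 1)) := by
  intro β
  let A : Set W := {a | a ∈ sec F n ∧ β < a}
  have hA : Cof A := by
    intro γ
    obtain ⟨a, ha, h1⟩ := h (max β γ)
    exact ⟨a, ⟨ha, (le_max_left _ _).trans_lt h1⟩, (le_max_right _ _).trans_lt h1⟩
  obtain ⟨δ, hex, h1, -⟩ := hC A A hA hA
  have h2 : CatchAt D (sec F n) δ := by
    intro γ hγ
    obtain ⟨a, ha, h3, h4⟩ := h1 γ hγ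
    exact ⟨a, ha.1, h3, h4⟩
  refine ⟨δ, mem_of_catch hD hF hex h2, ?_⟩
  obtain ⟨γ, hγ⟩ := hex
  obtain ⟨a, ha, h3, -⟩ := h1 γ hγ
  exact ha.2.trans (hD.1 δ a h3)

theorem cof_le (hD : IsLadder D) (hC : Catches D) {F : Set (Sp D)} (hF : IsClosed F) {n m : ℕ}
    (hnm : n ≤ m) (h : Cof (sec F n)) : Cof (sec F m) := by
  induction m, hnm using Nat.le_induction with
  | base => exact h
  | succ m _ ih => exact cof_succ hD hC hF ih

/-- A set without cofinal sections is bounded. -/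
theorem bdd_of_not_cof (hb : SeqBdd W) {F : Set (Sp D)} (h : ∀ n, ¬ Cof (sec F n)) :
    ∃ γ, F ⊆ Low D γ := by
  have h1 : ∀ n, ∃ β, ∀ a ∈ sec F n, a ≤ β := by
    intro n
    have := h n
    unfold Cof at this
    push Not at this
    obtain ⟨β, hβ⟩ := this
    exact ⟨β, hβ⟩
  choose β hβ using h1
  obtain ⟨γ, hγ⟩ := hb β
  refine ⟨γ, ?_⟩
  rintro ⟨δ, n⟩ hx
  exact (hβ n δ hx).trans (hγ n).le

/-- One of two disjoint closed sets is bounded. -/
theorem bdd_or (hb : SeqBdd W) (hD : IsLadder D) (hC : Catches D) {F K : Set (Sp D)}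
    (hF : IsClosed F) (hK : IsClosed K) (hdis : Disjoint F K) :
    (∃ γ, F ⊆ Low D γ) ∨ ∃ γ, K ⊆ Low D γ := by
  by_contra hcon
  push Not at hcon
  have h1 : ∃ n, Cof (sec F n) := by
    by_contra h
    push Not at h
    obtain ⟨γ, hγ⟩ := bdd_of_not_cof hb h
    exact hcon.1 γ hγ
  have h2 : ∃ n, Cof (sec K n) := by
    by_contra h
    push Not at h
    obtain ⟨γ, hγ⟩ := bdd_of_not_cof hb h
    exact hcon.2 γ hγ
  obtain ⟨n, hn⟩ := h1
  obtain ⟨m, hm⟩ := h2
  have h3 := cof_le hD hC hF (le_max_left n m) hn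
  have h4 := cof_le hD hC hK (le_max_right n m) hm
  obtain ⟨δ, hex, h5, h6⟩ := hC _ _ h3 h4
  exact Set.disjoint_left.1 hdis (mem_of_catch hD hF hex h5) (mem_of_catch hD hK hex h6)

section

variable (hwf : WellFounded ((· < ·) : W → W → Prop)) (hD : IsLadder D)

include hwf hD

theorem sepcover {F K : Set (Sp D)} (hF : F.Countable) (hK : IsClosed K) (hdis : Disjoint F K) :
    HasSeparatingCover F K := by
  rcases F.eq_empty_or_nonempty with rfl | hne
  · exact Set.hasSeparatingCover_empty_left K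
  obtain ⟨f, rfl⟩ := hF.exists_eq_range hne
  have h : ∀ n, ∃ V : Set (Sp D), IsOpen V ∧ IsClosed V ∧ f n ∈ V ∧ V ⊆ Kᶜ := fun n =>
    exists_clopen hwf hD hK.isOpen_compl (Set.disjoint_left.1 hdis ⟨n, rfl⟩)
  choose V h1 h2 h3 h4 using h
  refine ⟨V, ?_, fun n => ⟨h1 n, ?_⟩⟩
  · rintro _ ⟨n, rfl⟩
    exact mem_iUnion.2 ⟨n, h3 n⟩
  · rw [(h2 n).closure_eq]
    exact Set.disjoint_left.2 fun x hx hxK => h4 n hx hxK

theorem separated (hc : CtbleInit W) {F K : Set (Sp D)} (hF : IsClosed F) (hK : IsClosed K)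
    (hdis : Disjoint F K) {γ : W} (hγ : F ⊆ Low D γ) : SeparatedNhds F K := by
  have hlow := low_countable (D := D) hc γ
  have h1 : HasSeparatingCover F (K ∩ Low D γ) :=
    sepcover hwf hD (hlow.mono hγ) (hK.inter (isClosed_Low hD γ)) (hdis.mono_right inter_subset_left)
  have h2 : HasSeparatingCover (K ∩ Low D γ) F :=
    sepcover hwf hD (hlow.mono inter_subset_right) hF (hdis.symm.mono_left inter_subset_left)
  obtain ⟨U, V, hU, hV, hFU, hKV, hUV⟩ := hasSeparatingCovers_iff_separatedNhds.1 ⟨h1, h2⟩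
  refine ⟨U ∩ Low D γ, V ∪ (Low D γ)ᶜ, hU.inter (isOpen_Low hD γ),
    hV.union (isClosed_Low hD γ).isOpen_compl, fun x hx => ⟨hFU hx, hγ hx⟩, ?_, ?_⟩
  · intro x hx
    by_cases h : x ∈ Low D γ
    · exact Or.inl (hKV ⟨hx, h⟩)
    · exact Or.inr h
  · rw [Set.disjoint_left]
    rintro x ⟨hxU, hxL⟩ (hxV | hxV)
    · exact Set.disjoint_left.1 hUV hxU hxV
    · exact hxV hxL

theorem normal (hc : CtbleInit W) (hb : SeqBdd W) (hC : Catches D) : NormalSpace (Sp D) := by
  refine ⟨fun F K hF hK hdis => ?_⟩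
  rcases bdd_or hb hD hC hF hK hdis with ⟨γ, hγ⟩ | ⟨γ, hγ⟩
  · exact separated hwf hD hc hF hK hdis hγ
  · exact (separated hwf hD hc hK hF hdis.symm hγ).symm

end

theorem t1 (hD : IsLadder D) : T1Space (Sp D) := ⟨fun x => isClosed_pt hD x⟩

/-- The Dowker property. -/
theorem not_cp (hW : Nonempty W) (hb : SeqBdd W) (hD : IsLadder D) (hC : Catches D) :
    ¬ CountablyParacompact (Sp D) := by
  intro hcp
  obtain ⟨ι, V, hV1, hV2, hV3, hV4⟩ := hcp (fun n => (High D (n + 1))ᶜ)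
    (fun n => (isClosed_High (n + 1)).isOpen_compl) (by
      rw [eq_univ_iff_forall]
      intro x
      exact mem_iUnion.2 ⟨x.2, fun h => absurd (show x.2 + 1 ≤ x.2 from h) (by omega)⟩)
  -- closed sets
  let F : ℕ → Set (Sp D) := fun n => (⋃ i : {i // ¬ V i ⊆ (High D (n + 1))ᶜ}, V i)ᶜ
  have hF : ∀ n, IsClosed (F n) := fun n =>
    isClosed_compl_iff.2 (isOpen_iUnion fun i => hV1 i)
  have hFH : ∀ n, F n ⊆ (High D (n + 1))ᶜ := by
    intro n x hx hxH
    apply hx
    have hxV : x ∈ ⋃ i, V i := by rw [hV2]; trivial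
    obtain ⟨i, hi⟩ := mem_iUnion.1 hxV
    exact mem_iUnion.2 ⟨⟨i, fun h => h hi hxH⟩, hi⟩
  have hcov : ∀ x : Sp D, ∃ n, x ∈ F n := by
    intro x
    have hfin : {i | x ∈ V i}.Finite := hV3.point_finite x
    choose k hk using hV4
    obtain ⟨m, hm⟩ := (hfin.image k).bddAbove
    refine ⟨m, fun hx => ?_⟩
    obtain ⟨⟨i, hi⟩, hxi⟩ := mem_iUnion.1 hx
    apply hi
    have h1 : k i ≤ m := hm ⟨i, hxi, rfl⟩
    refine (hk i).trans ?_
    intro y hy hyH
    exact hy (show k i + 1 ≤ y.2 from (by omega : k i + 1 ≤ m + 1).trans hyH)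
  have hnc : ∀ n m, ¬ Cof (sec (F n) m) := by
    intro n m h
    have h1 := cof_le hD hC (hF n) (le_max_left m (n + 1)) h
    obtain ⟨w⟩ := hW
    obtain ⟨a, ha, -⟩ := h1 w
    exact hFH n ha (show n + 1 ≤ max m (n + 1) from le_max_right _ _)
  have hbd : ∀ n, ∃ γ, F n ⊆ Low D γ := fun n => bdd_of_not_cof hb (hnc n)
  choose γ hγ using hbd
  obtain ⟨w, hw⟩ := hb γ
  obtain ⟨n, hn⟩ := hcov ((w, 0) : W × ℕ)
  exact absurd ((hγ n hn).trans_lt (hw n)) (lt_irrefl _)

/-- First countability. -/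
theorem firstCountable (hc : CtbleInit W) : FirstCountableTopology (Sp D) := by
  refine ⟨fun x => ?_⟩
  by_cases hex : ∃ β, β < x.1
  · have hbasis : (𝓝 x).HasBasis (fun β : W => β < x.1) (fun β => N D β x) := by
      refine ⟨fun t => ?_⟩
      rw [mem_nhds_iff]
      constructor
      · rintro ⟨U, hUt, hU, hxU⟩
        obtain ⟨β, hβ, h⟩ := isOpen_iff.1 hU x hxU hex
        exact ⟨β, hβ, fun z hz => hUt (h z hz)⟩
      · rintro ⟨β, hβ, h⟩
        exact ⟨N D β x, h, isOpen_N hβ, mem_N⟩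
    exact HasCountableBasis.isCountablyGenerated ⟨hbasis, init_countable hc x.1⟩
  · have : 𝓝 x = 𝓟 {x} := by
      rw [principal_singleton]
      exact (isOpen_singleton_iff_nhds_eq_pure x).1 (isOpen_bot hex)
    rw [this]
    exact isCountablyGenerated_principal _

/-- Each point has a countable open neighbourhood. -/
theorem locallyCountable (hc : CtbleInit W) (hD : IsLadder D) (x : Sp D) :
    ∃ U : Set (Sp D), IsOpen U ∧ x ∈ U ∧ U.Countable :=
  ⟨Low D x.1, isOpen_Low hD _, show x.1 ≤ x.1 from le_rfl, low_countable hc _⟩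

end Pool.Agent.V7H73.DW
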