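import Mathlib
import Pool.Agent.V7H73.DW.Hyp

set_option autoImplicit false

/-!
# The forcing language

A sentence of the forcing language of a preordered set `P` of conditions is represented by the set
of the conditions which force it. A name for a subset of a ground model set `A` is a map
`x : A → Set P`: the element `a` belongs to the set named by `x` iff the generic filter meets `x a`.
Names for relations and functions are names for subsets of products.
-/

namespace Pool.Agent.V7H73.DW

universe u v w

section Language

variable {P : Type u} [Preorder P]

/-- `p` forces `not φ` iff no `q ≤ p` forces `φ`. -/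
def fnot (φ : Set P) : Set P := {p | ∀ q ≤ p, q ∉ φ}

/-- `p` forces `φ and ψ` iff it forces both. -/
def fand (φ ψ : Set P) : Set P := {p | p ∈ φ ∧ p ∈ ψ}

/-- `p` forces `for all i, φ i` iff it forces every `φ i`. -/
def fall {ι : Sort v} (φ : ι → Set P) : Set P := {p | ∀ i, p ∈ φ i}

/-- `φ implies ψ` is `not (φ and not ψ)`. -/
def fimp (φ ψ : Set P) : Set P := fnot (fand φ (fnot ψ))

/-- `there is i with φ i` is `not for all i, not φ i`. -/
def fex {ι : Sort v} (φ : ι → Set P) : Set P := fnot (fall fun i => fnot (φ i))

/-- An absolute statement about ground model objects. -/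
def fground (h : Prop) : Set P := {_p | h}

/-- `p` forces that the generic filter meets the set `N` of conditions:
the set of `r` lying below some member of `N` is dense below `p`. -/
def meets (N : Set P) : Set P := {p | ∀ q ≤ p, ∃ r ≤ q, ∃ s ∈ N, r ≤ s}

/-- The relation named by `R` is a function from `X` to `Y`. -/
def IsFun {X : Type v} {Y : Type w} (R : X → Y → Set P) : Set P :=
  fand (fall fun x => fex fun y => meets (R x y))
    (fall fun x => fall fun y => fall fun y' =>
      fimp (fand (meets (R x y)) (meets (R x y'))) (fground (y = y')))

end Language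

section Sentences

variable (P : Type) [Preorder P] (W : Type) [LinearOrder W]

variable {W} in
/-- The sentence `IsLadder D`. -/
def IsLadderN (D : W → W → Set P) : Set P :=
  fand (fall fun δ : W => fall fun d : W => fimp (meets (D δ d)) (fground (d < δ)))
    (fall fun δ : W => fall fun β : W => fimp (fground (β < δ)) (fex fun S : Finset W =>
      fall fun d : W => fimp (meets (D δ d)) (fimp (fground (d ≤ β)) (fground (d ∈ S)))))

variable {W} in
/-- The sentence `Cof A`. -/
def CofN (A : W → Set P) : Set P :=
  fall fun β : W => fex fun a : W => fand (meets (A a)) (fground (β < a))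

variable {W} in
/-- The sentence `CatchAt D A δ`. -/
def CatchAtN (D : W → W → Set P) (A : W → Set P) (δ : W) : Set P :=
  fall fun β : W => fimp (fground (β < δ)) (fex fun a : W =>
    fand (meets (A a)) (fand (meets (D δ a)) (fground (β < a))))

variable {W} in
/-- The sentence `Catches D`. -/
def CatchesN (D : W → W → Set P) : Set P :=
  fall fun A : W → Set P => fall fun B : W → Set P => fimp (CofN P A) (fimp (CofN P B)
    (fex fun δ : W => fand (fex fun β : W => fground (β < δ))
      (fand (CatchAtN P D A δ) (CatchAtN P D B δ))))

/-- The sentence `WellOrd W`. -/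
def WellOrdN : Set P :=
  fall fun A : W → Set P => fimp (fex fun a : W => meets (A a))
    (fex fun a : W => fand (meets (A a)) (fall fun x : W => fimp (meets (A x)) (fground (a ≤ x))))

/-- The sentence `CtbleInit W`. -/
def CtbleInitN : Set P :=
  fall fun w : W => fex fun e : ℕ → W → Set P => fand (IsFun e)
    (fall fun x : W => fimp (fground (x < w)) (fex fun n : ℕ => meets (e n x)))

/-- The sentence `SeqBdd W`. -/
def SeqBddN : Set P :=
  fall fun f : ℕ → W → Set P => fimp (IsFun f)
    (fex fun w : W => fall fun n : ℕ => fall fun v : W => fimp (meets (f n v)) (fground (v < w)))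

/-- The sentence `Avoid W`. -/
def AvoidN : Set P :=
  fall fun G : W → ℕ → ℕ → Set P => fimp (fall fun α : W => IsFun (G α))
    (fex fun h : ℕ → ℕ → Set P => fand (IsFun h)
      (fand (fall fun n : ℕ => fall fun v : ℕ => fimp (meets (h n v)) (fground (v < 2 ^ n)))
        (fall fun α : W => fex fun m : ℕ => fall fun n : ℕ => fimp (fground (m ≤ n))
          (fall fun v : ℕ => fimp (meets (G α n v)) (fnot (meets (h n v)))))))

/-- The sentence `Hypothesis W`. -/
def HypothesisN : Set P :=
  fand (fground (Nonempty W)) <| fand (WellOrdN P W) <| fand (CtbleInitN P W) <|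
  fand (SeqBddN P W) <|
  fand (fex fun D : W → W → Set P => fand (IsLadderN P D) (CatchesN P D)) (AvoidN P W)

end Sentences

end Pool.Agent.V7H73.DW
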