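import Mathlib
import Pool.Agent.V7H73.DW.Names

set_option autoImplicit false

/-!
# Products of a σ-closed forcing notion and a measure algebra

Conditions are pairs `(q, b)` where `q` is an element of a preordered set `Q` in which decreasing
sequences have lower bounds and `b` is a measurable set of positive measure.
-/

namespace Pool.Agent.V7H73.DW

open Set MeasureTheory Filter Topology
open scoped ENNReal

section Forcing

variable {P : Type} [Preorder P]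

theorem mem_fex {ι : Type*} {φ : ι → Set P} {p : P} :
    p ∈ fex φ ↔ ∀ q ≤ p, ∃ r ≤ q, ∃ i, r ∈ φ i := by
  constructor
  · intro h q hq
    have h1 : q ∉ fall fun i => fnot (φ i) := h q hq
    by_contra hc
    apply h1
    intro i r hr hri
    exact hc ⟨r, hr, i, hri⟩
  · intro h q hq hall
    obtain ⟨r, hr, i, hi⟩ := h q hq
    exact hall i r hr hi

theorem mem_fex_of {ι : Type*} {φ : ι → Set P} {p : P} (i : ι) (h : ∀ q ≤ p, q ∈ φ i) :
    p ∈ fex φ := mem_fex.2 fun q hq => ⟨q, le_rfl, i, h q hq⟩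

theorem mem_fimp {φ ψ : Set P} {p : P} :
    p ∈ fimp φ ψ ↔ ∀ q ≤ p, q ∈ φ → ∃ r ≤ q, r ∈ ψ := by
  constructor
  · intro h q hq hφ
    have h1 : q ∉ fand φ (fnot ψ) := h q hq
    by_contra hc
    exact h1 ⟨hφ, fun r hr hrψ => hc ⟨r, hr, hrψ⟩⟩
  · intro h q hq hc
    obtain ⟨r, hr, hψ⟩ := h q hq hc.1
    exact hc.2 r hr hψ

theorem mem_fimp_of {φ ψ : Set P} {p : P} (h : ∀ q ≤ p, q ∈ φ → q ∈ ψ) : p ∈ fimp φ ψ :=
  mem_fimp.2 fun q hq hφ => ⟨q, le_rfl, h q hq hφ⟩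

theorem down_fnot {φ : Set P} {p q : P} (h : p ∈ fnot φ) (hq : q ≤ p) : q ∈ fnot φ :=
  fun r hr => h r (hr.trans hq)

theorem down_fimp {φ ψ : Set P} {p q : P} (h : p ∈ fimp φ ψ) (hq : q ≤ p) : q ∈ fimp φ ψ :=
  down_fnot h hq

theorem down_fex {ι : Type*} {φ : ι → Set P} {p q : P} (h : p ∈ fex φ) (hq : q ≤ p) :
    q ∈ fex φ := down_fnot h hq

theorem down_meets {N : Set P} {p q : P} (h : p ∈ meets N) (hq : q ≤ p) : q ∈ meets N :=
  fun r hr => h r (hr.trans hq)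

theorem meets_dense {N : Set P} {p : P} (h : ∀ q ≤ p, ∃ r ≤ q, r ∈ meets N) : p ∈ meets N := by
  intro q hq
  obtain ⟨r, hr, h1⟩ := h q hq
  obtain ⟨s, hs, t, ht, hst⟩ := h1 r le_rfl
  exact ⟨s, hs.trans hr, t, ht, hst⟩

theorem down_IsFun {X Y : Type*} {R : X → Y → Set P} {p q : P} (h : p ∈ IsFun R) (hq : q ≤ p) :
    q ∈ IsFun R :=
  ⟨fun x => down_fex (h.1 x) hq, fun x y y' => down_fimp (h.2 x y y') hq⟩

theorem IsFun_tot {X Y : Type*} {R : X → Y → Set P} {p : P} (h : p ∈ IsFun R) (x : X) :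
    ∃ r ≤ p, ∃ y, r ∈ meets (R x y) := mem_fex.1 (h.1 x) p le_rfl

theorem IsFun_fun {X Y : Type*} {R : X → Y → Set P} {p : P} (h : p ∈ IsFun R) {x : X} {y y' : Y}
    (h1 : p ∈ meets (R x y)) (h2 : p ∈ meets (R x y')) : y = y' := by
  obtain ⟨r, _, h3⟩ := mem_fimp.1 (h.2 x y y') p le_rfl ⟨h1, h2⟩
  exact h3

end Forcing

section Measure

variable {Ω : Type} [MeasurableSpace Ω] (μ : Measure Ω)

/-- Measurable sets of positive measure, ordered by inclusion. -/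
def Ev : Type := {b : Set Ω // MeasurableSet b ∧ μ b ≠ 0}

instance : Preorder (Ev μ) := inferInstanceAs (Preorder {b : Set Ω // MeasurableSet b ∧ μ b ≠ 0})

theorem Ev.le_iff {b c : Ev μ} : b ≤ c ↔ b.1 ⊆ c.1 := Iff.rfl

variable {Q : Type} [Preorder Q]

/-- below `q`, all conditions with second coordinate contained in `c` force that the generic
filter meets `N`. -/
def FF (N : Set (Q × Ev μ)) (q : Q) (c : Set Ω) : Prop :=
  ∀ c' : Ev μ, c'.1 ⊆ c → (q, c') ∈ meets N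

variable {μ}

theorem FF.down {N : Set (Q × Ev μ)} {q q' : Q} {c : Set Ω} (h : FF μ N q c) (hq : q' ≤ q) :
    FF μ N q' c := fun c' hc' => down_meets (h c' hc') ⟨hq, le_rfl⟩

theorem FF.mono {N : Set (Q × Ev μ)} {q : Q} {c d : Set Ω} (h : FF μ N q c) (hd : d ⊆ c) :
    FF μ N q d := fun c' hc' => h c' (hc'.trans hd)

theorem FF_of_meets {N : Set (Q × Ev μ)} {q : Q} {c : Ev μ} (h : (q, c) ∈ meets N) :
    FF μ N q c.1 := fun _ hc' => down_meets h ⟨le_rfl, hc'⟩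

theorem exists_inter {b : Set Ω} (hb : μ b ≠ 0) {c : ℕ → Set Ω} (h : μ (b \ ⋃ k, c k) = 0) :
    ∃ k, μ (b ∩ c k) ≠ 0 := by
  by_contra hc
  push Not at hc
  apply hb
  have h1 : b ⊆ (b \ ⋃ k, c k) ∪ ⋃ k, b ∩ c k := by
    intro x hx
    by_cases hx' : x ∈ ⋃ k, c k
    · obtain ⟨k, hk⟩ := mem_iUnion.1 hx'
      exact Or.inr (mem_iUnion.2 ⟨k, hx, hk⟩)
    · exact Or.inl ⟨hx, hx'⟩
  exact measure_mono_null h1 (measure_union_null h (measure_iUnion_null hc))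

theorem FF_iUnion {N : Set (Q × Ev μ)} {q : Q} {c : ℕ → Set Ω} (hm : ∀ k, MeasurableSet (c k))
    (h : ∀ k, FF μ N q (c k)) : FF μ N q (⋃ k, c k) := by
  rintro ⟨c', hc'm, hc'0⟩ hc'
  apply meets_dense
  rintro ⟨q1, c1⟩ ⟨hq1, hc1⟩
  have hsub : c1.1 ⊆ ⋃ k, c k := (show c1.1 ⊆ c' from hc1).trans hc'
  obtain ⟨k, hk⟩ := exists_inter c1.2.2 (c := c) (by
    rw [Set.sdiff_eq_empty.2 hsub]; exact measure_empty)
  refine ⟨(q1, ⟨c1.1 ∩ c k, c1.2.1.inter (hm k), hk⟩), ⟨le_rfl, inter_subset_left⟩, ?_⟩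
  exact down_meets (h k ⟨c1.1 ∩ c k, c1.2.1.inter (hm k), hk⟩ inter_subset_right) ⟨hq1, le_rfl⟩

/-- For a class of measurable sets closed under countable unions there is one of maximal measure;
it contains all others up to null sets. -/
theorem exists_max [IsProbabilityMeasure μ] (C : Set Ω → Prop) (h0 : C ∅)
    (hm : ∀ c, C c → MeasurableSet c)
    (hU : ∀ c : ℕ → Set Ω, (∀ k, C (c k)) → C (⋃ k, c k)) :
    ∃ E, C E ∧ (∀ c, C c → μ c ≤ μ E) ∧ ∀ c, C c → μ (c \ E) = 0 := by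
  let S : Set ℝ≥0∞ := {x | ∃ c, C c ∧ μ c = x}
  have hne : S.Nonempty := ⟨μ ∅, ∅, h0, rfl⟩
  obtain ⟨u, -, hu, huS⟩ := exists_seq_tendsto_sSup hne (OrderTop.bddAbove S)
  choose c hc hcu using huS
  refine ⟨⋃ k, c k, hU c hc, ?_, ?_⟩
  · intro d hd
    have h1 : μ d ≤ sSup S := le_sSup ⟨d, hd, rfl⟩
    refine h1.trans (le_of_tendsto hu (Eventually.of_forall fun k => ?_))
    rw [← hcu k]
    exact measure_mono (subset_iUnion c k)
  · intro d hd
    by_contra hne0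
    have hE := hm _ (hU c hc)
    have h1 : C (d ∪ ⋃ k, c k) := by
      have : d ∪ ⋃ k, c k = ⋃ j : ℕ, (fun j : ℕ => if j = 0 then d else c (j - 1)) j := by
        ext x
        simp only [mem_union, mem_iUnion]
        constructor
        · rintro (h | ⟨k, hk⟩)
          · exact ⟨0, by simpa using h⟩
          · exact ⟨k + 1, by simpa using hk⟩
        · rintro ⟨j, hj⟩
          by_cases hj0 : j = 0
          · left; simpa [hj0] using hj
          · right; exact ⟨j - 1, by simpa [hj0] using hj⟩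
      rw [this]
      apply hU
      intro k
      by_cases hk : k = 0
      · simpa [hk] using hd
      · simpa [hk] using hc (k - 1)
    have h2 : μ (d ∪ ⋃ k, c k) ≤ sSup S := le_sSup ⟨_, h1, rfl⟩
    have h3 : sSup S ≤ μ (⋃ k, c k) := by
      refine le_of_tendsto hu (Eventually.of_forall fun k => ?_)
      rw [← hcu k]
      exact measure_mono (subset_iUnion c k)
    have h4 : μ (d ∪ ⋃ k, c k) = μ (⋃ k, c k) + μ (d \ ⋃ k, c k) := by
      rw [union_comm, ← union_sdiff_self, measure_union disjoint_sdiff_right ((hm d hd).diff hE)]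
    have h5 : μ (⋃ k, c k) + μ (d \ ⋃ k, c k) ≤ μ (⋃ k, c k) + 0 := by
      rw [← h4, add_zero]; exact h2.trans h3
    exact hne0 (le_antisymm ((ENNReal.add_le_add_iff_left (measure_ne_top μ _)).1 h5) bot_le)

end Measure

section Closed

variable {Q : Type} [Preorder Q]

/-- Decreasing sequences have lower bounds. -/
def SigmaClosed (Q : Type) [Preorder Q] : Prop :=
  ∀ q : ℕ → Q, (∀ n, q (n + 1) ≤ q n) → ∃ r, ∀ n, r ≤ q n

/-- A bounded antitone function is constant below some element. -/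
theorem exists_const (hσ : SigmaClosed Q) (v : Q → ℝ≥0∞) (hv : ∀ q, v q ≤ 1)
    (hmono : ∀ q q', q' ≤ q → v q ≤ v q') (q0 : Q) :
    ∃ q ≤ q0, ∀ q' ≤ q, v q' = v q := by
  let S : Q → ℝ≥0∞ := fun q => sSup {x | ∃ q' ≤ q, v q' = x}
  have hS : ∀ q (k : ℕ), ∃ q' ≤ q, S q ≤ v q' + (k + 1 : ℝ≥0∞)⁻¹ := by
    intro q k
    by_contra hc
    push Not at hc
    have h1 : S q + (k + 1 : ℝ≥0∞)⁻¹ ≤ S q := by
      have h2 : S q = sSup {x | ∃ q' ≤ q, v q' = x} := rfl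
      have h3 : sSup {x | ∃ q' ≤ q, v q' = x} + (k + 1 : ℝ≥0∞)⁻¹ ≤ S q := by
        rw [ENNReal.sSup_add (show {x | ∃ q' ≤ q, v q' = x}.Nonempty from ⟨v q, q, le_rfl, rfl⟩)]
        refine iSup₂_le ?_
        rintro x ⟨q', hq', rfl⟩
        exact (hc q' hq').le
      rwa [← h2] at h3
    have h4 : S q ≤ 1 := sSup_le (by rintro x ⟨q', _, rfl⟩; exact hv q')
    have h5 : S q ≠ ⊤ := ne_top_of_le_ne_top ENNReal.one_ne_top h4
    have h6 : (k + 1 : ℝ≥0∞)⁻¹ ≤ 0 := by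
      have := h1.trans_eq (add_zero _).symm
      exact (ENNReal.add_le_add_iff_left h5).1 this
    have h7 : (k + 1 : ℝ≥0∞)⁻¹ ≠ 0 := by
      apply ENNReal.inv_ne_zero.2
      exact ENNReal.add_ne_top.2 ⟨ENNReal.natCast_ne_top k, ENNReal.one_ne_top⟩
    exact h7 (le_antisymm h6 bot_le)
  choose f hf1 hf2 using hS
  let q : ℕ → Q := fun n => Nat.rec q0 (fun k q => f q k) n
  obtain ⟨r, hr⟩ := hσ q (fun n => hf1 (q n) n)
  refine ⟨r, hr 0, ?_⟩
  intro q' hq'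
  apply le_antisymm _ (hmono _ _ hq')
  have h1 : ∀ n : ℕ, v q' ≤ v r + (n + 1 : ℝ≥0∞)⁻¹ := by
    intro n
    have h2 : v q' ≤ S (q n) := le_sSup ⟨q', hq'.trans (hr n), rfl⟩
    refine h2.trans ((hf2 (q n) n).trans ?_)
    gcongr
    exact hmono _ _ (hr (n + 1))
  have h2 : Tendsto (fun n : ℕ => v r + (n + 1 : ℝ≥0∞)⁻¹) atTop (𝓝 (v r + 0)) := by
    apply Tendsto.const_add
    have h3 := (tendsto_add_atTop_iff_nat 1).2 ENNReal.tendsto_inv_nat_nhds_zero
    refine h3.congr fun n => ?_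
    push_cast
    rfl
  rw [add_zero] at h2
  exact ge_of_tendsto' h2 h1

variable {Ω : Type} [MeasurableSpace Ω] {μ : Measure Ω} [IsProbabilityMeasure μ]

/-- **Exhaustion.** If the predicate `Φ` is inherited by stronger `q`, and if below `(q0, b0)` the
pairs with `Φ` are dense, then some `q ≤ q0` satisfies `Φ` with the members of a countable family
of measurable sets which covers almost all of `b0`. -/
theorem exhaust (hσ : SigmaClosed Q) (Φ : Q → Set Ω → Prop)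
    (hdown : ∀ q q' c, q' ≤ q → Φ q c → Φ q' c) (q0 : Q) (b0 : Ev μ)
    (hdense : ∀ q ≤ q0, ∀ c : Ev μ, c ≤ b0 → ∃ q' ≤ q, ∃ c' : Ev μ, c' ≤ c ∧ Φ q' c'.1) :
    ∃ q ≤ q0, ∃ c : ℕ → Set Ω, (∀ k, MeasurableSet (c k) ∧ c k ⊆ b0.1 ∧ Φ q (c k)) ∧
      μ (b0.1 \ ⋃ k, c k) = 0 := by
  classical
  let C : Q → Set Ω → Prop := fun q E => ∃ c : ℕ → Set Ω,
    (∀ k, MeasurableSet (c k) ∧ c k ⊆ b0.1 ∧ (Φ q (c k) ∨ c k = ∅)) ∧ E = ⋃ k, c k
  have hC0 : ∀ q, C q ∅ := fun q => ⟨fun _ => ∅, fun k => ⟨MeasurableSet.empty, empty_subset _,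
    Or.inr rfl⟩, by simp⟩
  have hCm : ∀ q c, C q c → MeasurableSet c := by
    rintro q c ⟨d, hd, rfl⟩
    exact MeasurableSet.iUnion fun k => (hd k).1
  have hCU : ∀ q, ∀ c : ℕ → Set Ω, (∀ k, C q (c k)) → C q (⋃ k, c k) := by
    intro q c hc
    choose d hd hcd using hc
    refine ⟨fun k => d k.unpair.1 k.unpair.2, fun k => hd _ _, ?_⟩
    ext x
    simp only [mem_iUnion, hcd]
    constructor
    · rintro ⟨i, j, h⟩
      exact ⟨Nat.pair i j, by simpa using h⟩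
    · rintro ⟨k, h⟩
      exact ⟨_, _, h⟩
  choose E hE1 hE2 hE3 using fun q => exists_max (μ := μ) (C q) (hC0 q) (hCm q) (hCU q)
  obtain ⟨q, hq, hconst⟩ := exists_const hσ (fun q => μ (E q)) (fun q => prob_le_one) (by
    intro q q' hq'
    apply hE2 q'
    obtain ⟨d, hd, hd'⟩ := hE1 q
    exact ⟨d, fun k => ⟨(hd k).1, (hd k).2.1, (hd k).2.2.imp (hdown _ _ _ hq') id⟩, hd'⟩) q0
  have hcov : μ (b0.1 \ E q) = 0 := by
    by_contra hne
    obtain ⟨q', hq', c', hc', hΦ⟩ := hdense q hq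
      ⟨b0.1 \ E q, b0.2.1.diff (hCm q _ (hE1 q)), hne⟩ Set.sdiff_subset
    have hc'E : Disjoint (E q) c'.1 := by
      rw [Set.disjoint_left]
      intro x hx hx'
      exact (hc' hx').2 hx
    have h1 : C q' (E q ∪ c'.1) := by
      obtain ⟨d, hd, hd'⟩ := hE1 q
      have h2 : ∀ k, C q' ((fun k : ℕ => if k = 0 then c'.1 else d (k - 1)) k) := by
        intro k
        by_cases hk : k = 0
        · simp only [hk, if_true]
          exact ⟨fun _ => c'.1, fun _ => ⟨c'.2.1, fun x hx => (hc' hx).1, Or.inl hΦ⟩,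
            (iUnion_const _).symm⟩
        · simp only [hk, if_false]
          exact ⟨fun _ => d (k - 1), fun _ => ⟨(hd _).1, (hd _).2.1,
            (hd _).2.2.imp (hdown _ _ _ hq') id⟩, (iUnion_const _).symm⟩
      have h3 := hCU q' _ h2
      convert h3 using 1
      ext x
      rw [hd']
      simp only [mem_union, mem_iUnion]
      constructor
      · rintro (⟨k, hk⟩ | h)
        · exact ⟨k + 1, by simpa using hk⟩
        · exact ⟨0, by simpa using h⟩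
      · rintro ⟨j, hj⟩
        by_cases hj0 : j = 0
        · right; simpa [hj0] using hj
        · left; exact ⟨j - 1, by simpa [hj0] using hj⟩
    have h2 : μ (E q ∪ c'.1) ≤ μ (E q') := hE2 q' _ h1
    rw [hconst q' hq', measure_union hc'E c'.2.1] at h2
    have h3 : μ (E q) + μ c'.1 ≤ μ (E q) + 0 := by rw [add_zero]; exact h2
    exact c'.2.2 (le_antisymm ((ENNReal.add_le_add_iff_left (measure_ne_top μ _)).1 h3) bot_le)
  obtain ⟨d, hd, hd'⟩ := hE1 q
  -- at least one of the sets satisfies `Φ`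
  have hex : ∃ k, Φ q (d k) := by
    by_contra hc
    push Not at hc
    have h1 : E q = ∅ := by
      rw [hd', iUnion_eq_empty]
      intro k
      rcases (hd k).2.2 with h | h
      · exact absurd h (hc k)
      · exact h
    rw [h1, Set.sdiff_empty] at hcov
    exact b0.2.2 hcov
  obtain ⟨k0, hk0⟩ := hex
  refine ⟨q, hq, fun k => if Φ q (d k) then d k else d k0, ?_, ?_⟩
  · intro k
    by_cases h : Φ q (d k)
    · simp only [h, if_true]
      exact ⟨(hd k).1, (hd k).2.1, trivial⟩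
    · simp only [h, if_false]
      exact ⟨(hd k0).1, (hd k0).2.1, hk0⟩
  · refine measure_mono_null ?_ hcov
    apply Set.sdiff_subset_sdiff_right
    rw [hd']
    apply iUnion_subset
    intro k x hx
    rw [mem_iUnion]
    refine ⟨k, ?_⟩
    rcases (hd k).2.2 with h | h
    · simp only [h, if_true]; exact hx
    · rw [h] at hx; exact absurd hx (notMem_empty x)

/-- Exhaustion for countably many predicates simultaneously. -/
theorem exhaust_seq (hσ : SigmaClosed Q) (Φ : ℕ → Q → Set Ω → Prop)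
    (hdown : ∀ n q q' c, q' ≤ q → Φ n q c → Φ n q' c) (q0 : Q) (b0 : Ev μ)
    (hdense : ∀ n, ∀ q ≤ q0, ∀ c : Ev μ, c ≤ b0 → ∃ q' ≤ q, ∃ c' : Ev μ, c' ≤ c ∧ Φ n q' c'.1) :
    ∃ q ≤ q0, ∀ n, ∃ c : ℕ → Set Ω, (∀ k, MeasurableSet (c k) ∧ c k ⊆ b0.1 ∧ Φ n q (c k)) ∧
      μ (b0.1 \ ⋃ k, c k) = 0 := by
  have h : ∀ n, ∀ q : {q : Q // q ≤ q0}, ∃ q' : {q : Q // q ≤ q0}, q'.1 ≤ q.1 ∧ ∃ c : ℕ → Set Ω,
      (∀ k, MeasurableSet (c k) ∧ c k ⊆ b0.1 ∧ Φ n q'.1 (c k)) ∧ μ (b0.1 \ ⋃ k, c k) = 0 := by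
    rintro n ⟨q, hq⟩
    obtain ⟨q', hq', c, hc⟩ := exhaust hσ (Φ n) (hdown n) q b0
      (fun q1 hq1 c hc => hdense n q1 (hq1.trans hq) c hc)
    exact ⟨⟨q', hq'.trans hq⟩, hq', c, hc⟩
  choose f hf1 c hc using h
  let q : ℕ → {q : Q // q ≤ q0} := fun n => Nat.rec ⟨q0, le_rfl⟩ (fun k q => f k q) n
  obtain ⟨r, hr⟩ := hσ (fun n => (q n).1) (fun n => hf1 n (q n))
  refine ⟨r, hr 0, fun n => ⟨c n (q n), fun k => ?_, (hc n (q n)).2⟩⟩
  obtain ⟨h1, h2, h3⟩ := (hc n (q n)).1 k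
  exact ⟨h1, h2, hdown n _ _ _ (hr (n + 1)) h3⟩

end Closed

end Pool.Agent.V7H73.DW
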