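import Mathlib
import Pool.Agent.V7H73.DW.Exhaust

set_option autoImplicit false

/-!
# Independent random functions
-/

namespace Pool.Agent.V7H73.DW

open Set MeasureTheory Filter Topology ProbabilityTheory
open scoped ENNReal

/-- The sample space: for each index `i : K` and each `n` a number below `2 ^ n`. -/
abbrev Om (K : Type) : Type := (j : K × ℕ) → Fin (2 ^ j.2)

/-- The product of the uniform measures. -/
noncomputable def mu (K : Type) : Measure (Om K) :=
  Measure.infinitePi fun j : K × ℕ => (PMF.uniformOfFintype (Fin (2 ^ j.2))).toMeasure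

instance (K : Type) : IsProbabilityMeasure (mu K) := by
  unfold mu; infer_instance

/-- The random function with index `i`. -/
def rnd {K : Type} (i : K) (n : ℕ) (ω : Om K) : ℕ := (ω (i, n)).val

theorem rnd_lt {K : Type} (i : K) (n : ℕ) (ω : Om K) : rnd i n ω < 2 ^ n := (ω (i, n)).isLt

/-- The σ-algebra generated by the coordinates in `C`. -/
@[reducible] def Fam (K : Type) (C : Set K) : MeasurableSpace (Om K) :=
  ⨆ j ∈ {j : K × ℕ | j.1 ∈ C}, MeasurableSpace.comap (fun ω : Om K => ω j) ⊤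

theorem Fam_mono {K : Type} {C C' : Set K} (h : C ⊆ C') : Fam K C ≤ Fam K C' :=
  biSup_mono fun _ hj => h hj

theorem Fam_le {K : Type} (C : Set K) : Fam K C ≤ MeasurableSpace.pi := by
  refine iSup₂_le fun j _ => ?_
  exact le_iSup (fun j : K × ℕ => MeasurableSpace.comap (fun ω : Om K => ω j) ⊤) j

theorem support {K : Type} {E : Set (Om K)} (hE : MeasurableSet E) :
    ∃ C : Set K, C.Countable ∧ MeasurableSet[Fam K C] E := by
  have hE' : MeasurableSpace.GenerateMeasurable {s : Set (Om K) | ∃ j : K × ℕ,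
      MeasurableSet[MeasurableSpace.comap (fun ω : Om K => ω j) ⊤] s} E :=
    MeasurableSpace.measurableSet_iSup.1 hE
  induction hE' with
  | basic u hu =>
    obtain ⟨j, hj⟩ := hu
    refine ⟨{j.1}, countable_singleton _, ?_⟩
    exact (le_biSup (fun j : K × ℕ => MeasurableSpace.comap (fun ω : Om K => ω j) ⊤)
      (show j ∈ {j' : K × ℕ | j'.1 ∈ ({j.1} : Set K)} from rfl)) _ hj
  | empty => exact ⟨∅, countable_empty, @MeasurableSet.empty _ (Fam K ∅)⟩
  | compl t ht ih =>
    obtain ⟨C, hC, h⟩ := ih (MeasurableSpace.measurableSet_iSup.2 ht)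
    exact ⟨C, hC, h.compl⟩
  | iUnion f hf ih =>
    choose C hC h using fun n => ih n (MeasurableSpace.measurableSet_iSup.2 (hf n))
    refine ⟨⋃ n, C n, countable_iUnion hC, ?_⟩
    exact MeasurableSet.iUnion fun n => Fam_mono (subset_iUnion C n) _ (h n)

theorem measurable_rnd {K : Type} (i : K) (n v : ℕ) : MeasurableSet {ω : Om K | rnd i n ω = v} := by
  have h : Measurable fun ω : Om K => ω (i, n) := measurable_pi_apply _
  exact h (MeasurableSet.of_discrete : MeasurableSet {x : Fin (2 ^ n) | x.val = v})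

theorem mu_rnd {K : Type} (i : K) (n v : ℕ) : mu K {ω : Om K | rnd i n ω = v} ≤ (2 ^ n)⁻¹ := by
  classical
  have h1 : mu K {ω : Om K | rnd i n ω = v} =
      (Measure.map (fun ω : Om K => ω (i, n)) (mu K)) {x : Fin (2 ^ n) | x.val = v} := by
    rw [Measure.map_apply (measurable_pi_apply _) MeasurableSet.of_discrete]
    rfl
  rw [h1]
  unfold mu
  rw [Measure.infinitePi_map_eval]
  have h2 := PMF.toMeasure_uniformOfFintype_apply (α := Fin (2 ^ n)) {x : Fin (2 ^ n) | x.val = v}
    MeasurableSet.of_discrete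
  refine h2.le.trans ?_
  rw [Fintype.card_fin, div_eq_mul_inv]
  have h3 : Fintype.card {x : Fin (2 ^ n) // x.val = v} ≤ 1 := by
    rw [Fintype.card_le_one_iff]
    rintro ⟨a, ha⟩ ⟨b, hb⟩
    apply Subtype.ext
    apply Fin.ext
    show a.val = b.val
    rw [ha, hb]
  have h4 : ((Fintype.card {x : Fin (2 ^ n) // x.val = v} : ℕ) : ℝ≥0∞) ≤ 1 := by exact_mod_cast h3
  calc _ ≤ 1 * ((2 ^ n : ℕ) : ℝ≥0∞)⁻¹ := by
        gcongr
        exact h4
    _ = (2 ^ n)⁻¹ := by rw [one_mul]; push_cast; rfl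

/-- Independence. -/
theorem mu_inter {K : Type} {C : Set K} {E : Set (Om K)} (hE : MeasurableSet[Fam K C] E) {i : K}
    (hi : i ∉ C) (n v : ℕ) : mu K (E ∩ {ω | rnd i n ω = v}) ≤ mu K E * (2 ^ n)⁻¹ := by
  have h1 : iIndepFun (fun (j : K × ℕ) (ω : Om K) => ω j) (mu K) :=
    iIndepFun_infinitePi (P := fun j : K × ℕ => (PMF.uniformOfFintype (Fin (2 ^ j.2))).toMeasure)
      (X := fun _ x => x) (fun _ => measurable_id)
  have h2 := h1.iIndep
  have h3 := indep_iSup_of_disjoint (m := fun j : K × ℕ => MeasurableSpace.comap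
    (fun ω : Om K => ω j) ⊤) (fun j => le_iSup (fun j : K × ℕ => MeasurableSpace.comap
      (fun ω : Om K => ω j) ⊤) j) h2 (S := {j : K × ℕ | j.1 ∈ C}) (T := {(i, n)}) (by
        rw [Set.disjoint_left]
        rintro j hj hj'
        have hj2 : j = (i, n) := hj'
        subst hj2
        exact hi hj)
  rw [Indep_iff] at h3
  have h4 := h3 E {ω | rnd i n ω = v} hE (by
    have h5 : MeasurableSet[MeasurableSpace.comap (fun ω : Om K => ω (i, n)) ⊤]
        {ω : Om K | rnd i n ω = v} := ⟨{x | x.val = v}, trivial, rfl⟩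
    exact (le_biSup (fun j : K × ℕ => MeasurableSpace.comap (fun ω : Om K => ω j) ⊤)
      (show (i, n) ∈ ({(i, n)} : Set (K × ℕ)) from rfl)) _ h5)
  rw [h4]
  gcongr
  exact mu_rnd i n v

end Pool.Agent.V7H73.DW
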