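import Mathlib
import Pool.Agent.V7H73.DW.Random

set_option autoImplicit false

/-!
# The hypothesis is forced

Conditions are pairs of a countable ladder system and an event of positive probability.
-/

namespace Pool.Agent.V7H73.DW

open Set MeasureTheory Filter Topology
open scoped ENNReal

section General

variable {P : Type} [Preorder P] {W : Type} [LinearOrder W]

theorem forced_wellOrd (hwo : WellOrd W) (p : P) : p ∈ WellOrdN P W := by
  intro A
  refine mem_fimp.2 fun q _ hq => ?_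
  obtain ⟨r0, hr0, a', ha'⟩ := mem_fex.1 hq q le_rfl
  obtain ⟨a, ⟨r, hr, ha⟩, hmin⟩ := hwo {a | ∃ r ≤ q, r ∈ meets (A a)} ⟨a', r0, hr0, ha'⟩
  refine ⟨r, hr, mem_fex_of a fun s hs => ⟨down_meets ha hs, fun x => mem_fimp_of ?_⟩⟩
  intro t ht htx
  exact hmin x ⟨t, ht.trans (hs.trans hr), htx⟩

/-- the canonical name of a ground model function -/
def chk {X Y : Type} (e : X → Y) : X → Y → Set P := fun x y => {_p | e x = y}

theorem mem_meets_cst {c : Prop} {p : P} (h : p ∈ meets ({_q : P | c})) : c := by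
  obtain ⟨r, _, s, hs, _⟩ := h p le_rfl
  exact hs

theorem meets_cst_of {c : Prop} (hc : c) (p : P) : p ∈ meets ({_q : P | c}) :=
  fun q _ => ⟨q, le_rfl, q, hc, le_rfl⟩

theorem isFun_chk {X Y : Type} (e : X → Y) (p : P) : p ∈ IsFun (chk (P := P) e) := by
  refine ⟨fun x => mem_fex_of (e x) fun q _ => meets_cst_of rfl q, fun x y y' =>
    mem_fimp_of fun q _ hq => ?_⟩
  have h1 : e x = y := mem_meets_cst hq.1
  have h2 : e x = y' := mem_meets_cst hq.2
  exact h1.symm.trans h2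

theorem forced_ctbleInit (hc : CtbleInit W) (p : P) : p ∈ CtbleInitN P W := by
  intro w
  obtain ⟨e, he⟩ := hc w
  refine mem_fex_of (chk e) fun q _ => ⟨isFun_chk e q, fun x => mem_fimp_of fun r _ hx => ?_⟩
  obtain ⟨n, hn⟩ := he x hx
  exact mem_fex_of n fun s _ => meets_cst_of hn s

end General

section Product

variable {Q : Type} [Preorder Q] {Ω : Type} [MeasurableSpace Ω] {μ : Measure Ω}
  [IsProbabilityMeasure μ] {W : Type} [LinearOrder W]

/-- Values of a name for a function are decided on almost all of `b`. -/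
theorem decide_seq (hσ : SigmaClosed Q) {X : Type} {Y : Type} (f : X → Y → Set (Q × Ev μ))
    (x : ℕ → X) {q : Q} {b : Ev μ} (hf : (q, b) ∈ IsFun f) :
    ∃ q' ≤ q, ∃ (c : ℕ → ℕ → Set Ω) (v : ℕ → ℕ → Y), (∀ n k, MeasurableSet (c n k) ∧
      c n k ⊆ b.1 ∧ FF μ (f (x n) (v n k)) q' (c n k)) ∧ ∀ n, μ (b.1 \ ⋃ k, c n k) = 0 := by
  obtain ⟨q', hq', h⟩ := exhaust_seq (μ := μ) hσ (fun n q c => ∃ v, FF μ (f (x n) v) q c)
    (fun n q q' c hq ⟨v, hv⟩ => ⟨v, hv.down hq⟩) q b (by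
      intro n q1 hq1 c hc
      obtain ⟨⟨q2, c2⟩, ⟨hq2, hc2⟩, v, hv⟩ := IsFun_tot (down_IsFun hf
        (show (q1, c) ≤ (q, b) from ⟨hq1, hc⟩)) (x n)
      exact ⟨q2, hq2, c2, hc2, v, FF_of_meets hv⟩)
  choose c hc1 hc2 using h
  choose v hv using fun n k => (hc1 n k).2.2
  exact ⟨q', hq', c, v, fun n k => ⟨(hc1 n k).1, (hc1 n k).2.1, hv n k⟩, hc2⟩

/-- intersection of an event with a measurable set -/
def Ev.inter (b : Ev μ) (c : Set Ω) (hc : MeasurableSet c) (h : μ (b.1 ∩ c) ≠ 0) : Ev μ :=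
  ⟨b.1 ∩ c, b.2.1.inter hc, h⟩

theorem decide_eq {X Y : Type} {f : X → Y → Set (Q × Ev μ)} {x : X} {y v : Y} {q q' q1 : Q}
    {b b1 : Ev μ} {c : Set Ω} (hf : (q, b) ∈ IsFun f) (hq' : q' ≤ q) (hcm : MeasurableSet c)
    (hFF : FF μ (f x v) q' c) (hq1 : q1 ≤ q') (hb1 : b1 ≤ b) (hy : (q1, b1) ∈ meets (f x y))
    (hpos : μ (b1.1 ∩ c) ≠ 0) : y = v := by
  have h0 : (q1, b1.inter c hcm hpos) ≤ (q1, b1) := ⟨le_rfl, inter_subset_left⟩
  refine IsFun_fun (p := (q1, b1.inter c hcm hpos)) (down_IsFun hf ?_) (down_meets hy h0) ?_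
  · exact ⟨hq1.trans hq', (show b1.1 ∩ c ⊆ b.1 from inter_subset_left.trans hb1)⟩
  · exact down_meets (hFF (b1.inter c hcm hpos) inter_subset_right) ⟨hq1, le_rfl⟩

theorem forced_seqBdd (hσ : SigmaClosed Q) (hb : SeqBdd W) (p : Q × Ev μ) :
    p ∈ SeqBddN (Q × Ev μ) W := by
  intro f
  refine mem_fimp.2 ?_
  rintro ⟨q, b⟩ _ hf
  obtain ⟨q', hq', c, v, h1, h2⟩ := decide_seq hσ f id hf
  obtain ⟨w, hw⟩ := hb fun k : ℕ => v k.unpair.1 k.unpair.2
  refine ⟨(q', b), ⟨hq', le_rfl⟩, mem_fex_of w fun s hs n y => mem_fimp_of ?_⟩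
  rintro ⟨q1, b1⟩ ht hy
  have hle : (q1, b1) ≤ (q', b) := le_trans ht hs
  obtain ⟨k, hk⟩ := exists_inter (μ := μ) b1.2.2 (c := c n)
    (measure_mono_null (sdiff_subset_sdiff_left hle.2) (h2 n))
  have : y = v n k := decide_eq hf hq' (h1 n k).1 (h1 n k).2.2 hle.1 hle.2 hy hk
  subst this
  have h3 := hw (Nat.pair n k)
  show v n k < w
  simpa using h3

end Product

section AvoidSec

variable {Q : Type} [Preorder Q] {K : Type} {W : Type}

/-- The name of the random function with the index `i`. -/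
def rndN (i : K) : ℕ → ℕ → Set (Q × Ev (mu K)) := fun n v =>
  {p | p.2.1 ⊆ {ω | rnd i n ω = v}}

theorem rndN_meets {i : K} {n v : ℕ} {p : Q × Ev (mu K)} (h : p ∈ meets (rndN i n v)) :
    ∃ r ≤ p, r.2.1 ⊆ {ω | rnd i n ω = v} := by
  obtain ⟨r, hr, s, hs, hrs⟩ := h p le_rfl
  exact ⟨r, hr, (show r.2.1 ⊆ s.2.1 from hrs.2).trans hs⟩

theorem Ev.nonempty {Ω : Type} [MeasurableSpace Ω] {μ : Measure Ω} (b : Ev μ) : b.1.Nonempty := by
  rw [nonempty_iff_ne_empty]
  intro h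
  exact b.2.2 (by rw [h]; exact measure_empty)

theorem isFun_rnd (i : K) (p : Q × Ev (mu K)) : p ∈ IsFun (rndN (Q := Q) i) := by
  refine ⟨fun n => mem_fex.2 ?_, fun n v v' => mem_fimp_of ?_⟩
  · rintro ⟨q, b⟩ _
    obtain ⟨v, hv⟩ := exists_inter (μ := mu K) b.2.2 (c := fun v => {ω | rnd i n ω = v}) (by
      have : b.1 \ ⋃ v, {ω | rnd i n ω = v} = ∅ := by
        rw [Set.sdiff_eq_empty]
        intro ω _
        exact mem_iUnion.2 ⟨_, rfl⟩
      rw [this]
      exact measure_empty)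
    refine ⟨(q, b.inter _ (measurable_rnd i n v) hv), ⟨le_rfl, inter_subset_left⟩, v, ?_⟩
    intro r hr
    exact ⟨r, le_rfl, r, (show r.2.1 ⊆ _ from hr.2).trans inter_subset_right, le_rfl⟩
  · intro q _ hq
    obtain ⟨r, hr, h1⟩ := rndN_meets hq.1
    obtain ⟨s, hs, h2⟩ := rndN_meets (down_meets hq.2 hr)
    obtain ⟨ω, hω⟩ := s.2.nonempty
    have h3 : rnd i n ω = v := h1 ((show s.2.1 ⊆ r.2.1 from hs.2) hω)
    have h4 : rnd i n ω = v' := h2 hω
    exact h3.symm.trans h4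

theorem exists_maxFF {N : Set (Q × Ev (mu K))} (q : Q) : ∃ E : Set (Om K), MeasurableSet E ∧
    FF (mu K) N q E ∧ ∀ c, MeasurableSet c → FF (mu K) N q c → mu K (c \ E) = 0 := by
  obtain ⟨E, h1, _, h3⟩ := exists_max (μ := mu K) (fun c => MeasurableSet c ∧ FF (mu K) N q c)
    ⟨MeasurableSet.empty, fun c' hc' => by
      obtain ⟨x, hx⟩ := c'.nonempty
      exact absurd (hc' hx) (notMem_empty x)⟩ (fun c hc => hc.1)
    (fun c hc => ⟨MeasurableSet.iUnion fun k => (hc k).1,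
      FF_iUnion (fun k => (hc k).1) fun k => (hc k).2⟩)
  exact ⟨E, h1.1, h1.2, fun c hc hc' => h3 c ⟨hc, hc'⟩⟩

/-- the parameters to be avoided by the index of the random function -/
abbrev Par (Q W : Type) : Type := (Q × W × ℕ × ℕ) × ℕ

theorem exists_index {T : Type} (C : T → Set (Set (T × ℕ))) (hC : ∀ t, (C t).Countable) :
    ∃ i : Set (T × ℕ), ∀ t, i ∉ C t := by
  by_contra hcon
  push Not at hcon
  choose t ht using hcon
  have h : ∀ t, ∃ e : ℕ → Set (T × ℕ), C t ⊆ range e := by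
    intro t
    rcases (C t).eq_empty_or_nonempty with h | h
    · exact ⟨fun _ => ∅, by rw [h]; exact empty_subset _⟩
    · obtain ⟨e, he⟩ := (hC t).exists_eq_range h
      exact ⟨e, he.le⟩
  choose e he using h
  choose n hn using fun i => he (t i) (ht i)
  have hinj : Function.Injective fun i : Set (T × ℕ) => (t i, n i) := by
    intro i j hij
    have h1 : t i = t j := congrArg Prod.fst hij
    have h2 : n i = n j := congrArg Prod.snd hij
    rw [← hn i, ← hn j, h1, h2]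
  exact Function.cantor_injective _ hinj

theorem forced_avoid (hσ : SigmaClosed Q) (p : Q × Ev (mu (Set (Par Q W)))) :
    p ∈ AvoidN (Q × Ev (mu (Set (Par Q W)))) W := by
  classical
  set K : Type := Set (Par Q W) with hK
  intro G
  refine mem_fimp.2 ?_
  rintro ⟨q0, b0⟩ _ hG
  -- the maximal events
  choose E hE1 hE2 hE3 using fun t : Q × W × ℕ × ℕ =>
    exists_maxFF (K := K) (N := G t.2.1 t.2.2.1 t.2.2.2) t.1
  choose C hC1 hC2 using fun t => support (hE1 t)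
  obtain ⟨i, hi⟩ := exists_index C hC1
  have hiC : i ∉ ⋃ t, C t := by
    rw [mem_iUnion]
    rintro ⟨t, ht⟩
    exact hi t ht
  have hEm : ∀ t, MeasurableSet[Fam K (⋃ t, C t)] (E t) := fun t =>
    Fam_mono (subset_iUnion C t) _ (hC2 t)
  refine ⟨(q0, b0), le_rfl, mem_fex_of (rndN i) fun s hs => ⟨isFun_rnd i s, ?_, ?_⟩⟩
  · intro n v
    refine mem_fimp_of fun r _ hr => ?_
    obtain ⟨r', _, h1⟩ := rndN_meets hr
    obtain ⟨ω, hω⟩ := r'.2.nonempty
    have h2 : rnd i n ω = v := h1 hω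
    rw [← h2]
    exact rnd_lt i n ω
  · intro α
    refine mem_fex.2 ?_
    rintro ⟨q1, b1⟩ hq1
    have hle1 : (q1, b1) ≤ (q0, b0) := le_trans hq1 hs
    obtain ⟨q', hq', c, v, h1, h2⟩ := decide_seq hσ (G α) id (down_IsFun (hG α) hle1)
    -- disjoint versions of the maximal events
    let F : ℕ → ℕ → Set (Om K) := fun n v => E (q', α, n, v) \ ⋃ u : Fin v, E (q', α, n, u)
    have hFm : ∀ n v, MeasurableSet[Fam K (⋃ t, C t)] (F n v) := fun n v =>
      MeasurableSet.diff (hEm _) (MeasurableSet.iUnion fun u => hEm _)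
    have hFm' : ∀ n v, MeasurableSet (F n v) := fun n v => Fam_le _ _ (hFm n v)
    have hFd : ∀ n, Pairwise (Function.onFun Disjoint (F n)) := by
      intro n u v huv
      rw [Function.onFun, Set.disjoint_left]
      intro ω hu hv
      rcases lt_or_gt_of_ne huv with h | h
      · exact hv.2 (mem_iUnion.2 ⟨⟨u, h⟩, hu.1⟩)
      · exact hu.2 (mem_iUnion.2 ⟨⟨v, h⟩, hv.1⟩)
    let Bad : ℕ → Set (Om K) := fun n => ⋃ v, F n v ∩ {ω | rnd i n ω = v}
    have hBm : ∀ n, MeasurableSet (Bad n) := fun n =>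
      MeasurableSet.iUnion fun v => (hFm' n v).inter (measurable_rnd i n v)
    have hBad : ∀ n, mu K (Bad n) ≤ (2 ^ n)⁻¹ := by
      intro n
      calc mu K (Bad n) ≤ ∑' v, mu K (F n v ∩ {ω | rnd i n ω = v}) := measure_iUnion_le _
        _ ≤ ∑' v, mu K (F n v) * (2 ^ n)⁻¹ := ENNReal.tsum_le_tsum fun v => mu_inter (hFm n v) hiC n v
        _ = (∑' v, mu K (F n v)) * (2 ^ n)⁻¹ := ENNReal.tsum_mul_right
        _ ≤ 1 * (2 ^ n)⁻¹ := by
          gcongr
          rw [← measure_iUnion (hFd n) (hFm' n)]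
          exact prob_le_one
        _ = (2 ^ n)⁻¹ := one_mul _
    -- small tails
    have hsum : ∑' n : ℕ, ((2 : ℝ≥0∞) ^ n)⁻¹ ≠ ⊤ := by
      have h3 : ∑' n : ℕ, ((2 : ℝ≥0∞) ^ n)⁻¹ = ∑' n : ℕ, ((2 : ℝ≥0∞)⁻¹) ^ n := by
        congr 1
        funext n
        rw [ENNReal.inv_pow]
      rw [h3, ENNReal.tsum_geometric]
      norm_num
    have htail := ENNReal.tendsto_tsum_compl_atTop_zero hsum
    have hpos : 0 < mu K b1.1 := pos_iff_ne_zero.2 b1.2.2
    obtain ⟨m, hm⟩ : ∃ m : ℕ, ∑' n : ℕ, ((2 : ℝ≥0∞) ^ (n + m))⁻¹ < mu K b1.1 := by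
      have h4 := (ENNReal.tendsto_sum_nat_add (fun n : ℕ => ((2 : ℝ≥0∞) ^ n)⁻¹) hsum)
      exact (h4.eventually_lt_const hpos).exists
    have hBadU : mu K (⋃ n, Bad (n + m)) < mu K b1.1 := by
      refine lt_of_le_of_lt ?_ hm
      refine (measure_iUnion_le _).trans (ENNReal.tsum_le_tsum fun n => hBad _)
    have hb2 : mu K (b1.1 \ ⋃ n, Bad (n + m)) ≠ 0 := by
      intro h5
      have h6 : mu K b1.1 ≤ mu K (b1.1 \ ⋃ n, Bad (n + m)) + mu K (⋃ n, Bad (n + m)) := by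
        refine (measure_mono ?_).trans (measure_union_le _ _)
        intro ω hω
        by_cases h : ω ∈ ⋃ n, Bad (n + m)
        · exact Or.inr h
        · exact Or.inl ⟨hω, h⟩
      rw [h5, zero_add] at h6
      exact absurd hBadU (not_lt.2 h6)
    let b2 : Ev (mu K) := ⟨b1.1 \ ⋃ n, Bad (n + m),
      b1.2.1.diff (MeasurableSet.iUnion fun n => hBm _), hb2⟩
    have hb21 : b2 ≤ b1 := (sdiff_subset : b1.1 \ ⋃ n, Bad (n + m) ⊆ b1.1)
    refine ⟨(q', b2), ⟨hq', hb21⟩, m, fun n => mem_fimp_of fun r hr hmn => ?_⟩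
    intro y
    refine mem_fimp_of fun t ht hty => ?_
    rintro t' ht' hmeet
    obtain ⟨⟨q3, c3⟩, ht3, hc3⟩ := rndN_meets hmeet
    have hle3 : (q3, c3) ≤ (q', b2) := le_trans ht3 (le_trans ht' (le_trans ht hr))
    have hy3 : (q3, c3) ∈ meets (G α n y) := down_meets hty (le_trans ht3 ht')
    have hc3b1 : c3.1 ⊆ b1.1 := (show c3.1 ⊆ b2.1 from hle3.2).trans hb21
    obtain ⟨k, hk⟩ := exists_inter (μ := mu K) c3.2.2 (c := c n)
      (measure_mono_null (sdiff_subset_sdiff_left hc3b1) (h2 n))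
    have hyv : y = v n k := decide_eq (down_IsFun (hG α) hle1) hq' (h1 n k).1 (h1 n k).2.2 hle3.1
      hc3b1 hy3 hk
    -- almost all of `c3 ∩ c n k` is contained in the bad event
    have h7 : mu K ((c3.1 ∩ c n k) \ E (q', α, n, y)) = 0 := by
      refine measure_mono_null (sdiff_subset_sdiff_left inter_subset_right) ?_
      have := hE3 (q', α, n, y) (c n k) (h1 n k).1 (by rw [hyv]; exact (h1 n k).2.2)
      exact this
    have h8 : ∀ u : Fin y, mu K (c3.1 ∩ E (q', α, n, u)) = 0 := by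
      intro u
      by_contra hne
      have : y = u := decide_eq (down_IsFun (hG α) hle1) hq' (hE1 (q', α, n, u))
        (hE2 (q', α, n, u)) hle3.1 hc3b1 hy3 hne
      exact absurd this (by have := u.2; omega)
    have h9 : mu K (c3.1 ∩ c n k) = 0 := by
      have hsub : c3.1 ∩ c n k ⊆ ((c3.1 ∩ c n k) \ E (q', α, n, y)) ∪
          ⋃ u : Fin y, c3.1 ∩ E (q', α, n, u) := by
        intro ω hω
        by_cases hωE : ω ∈ E (q', α, n, y)
        · by_cases hωu : ω ∈ ⋃ u : Fin y, E (q', α, n, u)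
          · obtain ⟨u, hu⟩ := mem_iUnion.1 hωu
            exact Or.inr (mem_iUnion.2 ⟨u, hω.1, hu⟩)
          · exfalso
            have hωB : ω ∈ Bad n := mem_iUnion.2 ⟨y, ⟨hωE, hωu⟩, hc3 hω.1⟩
            have hω2 : ω ∈ b2.1 := hle3.2 hω.1
            apply hω2.2
            have hmn' : m ≤ n := hmn
            refine mem_iUnion.2 ⟨n - m, ?_⟩
            rwa [Nat.sub_add_cancel hmn']
        · exact Or.inl ⟨hω, hωE⟩
      exact measure_mono_null hsub (measure_union_null h7 (measure_iUnion_null h8))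
    exact hk h9

end AvoidSec

end Pool.Agent.V7H73.DW
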