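import Mathlib
import Pool.Agent.V7H73.DW.Forced
import Pool.Agent.V7H73.DW.Dowker

set_option autoImplicit false

/-!
# Countable ladder systems; the generic ladder system
-/

namespace Pool.Agent.V7H73.DW

open Set MeasureTheory Filter Topology
open scoped ENNReal

variable {W : Type} [LinearOrder W]

/-- A countable approximation to a ladder system. -/
structure Lad (W : Type) [LinearOrder W] : Type where
  dom : Set W
  E : W → Set W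
  ctble : dom.Countable
  lt : ∀ δ ∈ dom, ∀ d ∈ E δ, d < δ
  fin : ∀ δ ∈ dom, ∀ β < δ, ∃ S : Finset W, ∀ d ∈ E δ, d ≤ β → d ∈ S

instance : Preorder (Lad W) where
  le q' q := q.dom ⊆ q'.dom ∧ ∀ δ ∈ q.dom, q'.E δ = q.E δ
  le_refl q := ⟨Subset.rfl, fun _ _ => rfl⟩
  le_trans a b c hab hbc := ⟨hbc.1.trans hab.1, fun δ hδ =>
    (hab.2 δ (hbc.1 hδ)).trans (hbc.2 δ hδ)⟩

theorem Lad.le_iff {q' q : Lad W} : q' ≤ q ↔ q.dom ⊆ q'.dom ∧ ∀ δ ∈ q.dom, q'.E δ = q.E δ := Iff.rfl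

theorem lad_anti {q : ℕ → Lad W} (hq : ∀ n, q (n + 1) ≤ q n) {m n : ℕ} (h : m ≤ n) :
    q n ≤ q m := by
  induction n, h using Nat.le_induction with
  | base => exact le_rfl
  | succ n _ ih => exact (hq n).trans ih

theorem lad_eq {q : ℕ → Lad W} (hq : ∀ n, q (n + 1) ≤ q n) {m n : ℕ} {δ : W}
    (hm : δ ∈ (q m).dom) (hn : δ ∈ (q n).dom) : (q m).E δ = (q n).E δ := by
  rcases le_total m n with h | h
  · exact ((lad_anti hq h).2 δ hm).symm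
  · exact (lad_anti hq h).2 δ hn

/-- union of a decreasing sequence of conditions -/
def Lad.union (q : ℕ → Lad W) (hq : ∀ n, q (n + 1) ≤ q n) : Lad W where
  dom := ⋃ n, (q n).dom
  E δ := {d | ∃ n, δ ∈ (q n).dom ∧ d ∈ (q n).E δ}
  ctble := countable_iUnion fun n => (q n).ctble
  lt := by
    rintro δ _ d ⟨n, hn, hd⟩
    exact (q n).lt δ hn d hd
  fin := by
    intro δ hδ β hβ
    obtain ⟨n, hn⟩ := mem_iUnion.1 hδ
    obtain ⟨S, hS⟩ := (q n).fin δ hn β hβ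
    refine ⟨S, ?_⟩
    rintro d ⟨m, hm, hd⟩ hle
    rw [lad_eq hq hm hn] at hd
    exact hS d hd hle

theorem Lad.union_le (q : ℕ → Lad W) (hq : ∀ n, q (n + 1) ≤ q n) (n : ℕ) :
    Lad.union q hq ≤ q n := by
  refine ⟨subset_iUnion (fun n => (q n).dom) n, fun δ hδ => ?_⟩
  ext d
  constructor
  · rintro ⟨m, hm, hd⟩
    rwa [lad_eq hq hm hδ] at hd
  · intro hd
    exact ⟨n, hδ, hd⟩

theorem lad_sigmaClosed : SigmaClosed (Lad W) := fun q hq => ⟨Lad.union q hq, Lad.union_le q hq⟩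

open Classical in
/-- adding a ladder -/
noncomputable def Lad.extend (q : Lad W) (δ : W) (A : Set W) (h1 : ∀ d ∈ A, d < δ)
    (h2 : ∀ β < δ, ∃ S : Finset W, ∀ d ∈ A, d ≤ β → d ∈ S) : Lad W where
  dom := insert δ q.dom
  E := fun ε => if ε ∈ q.dom then q.E ε else A
  ctble := q.ctble.insert δ
  lt := by
    intro ε hε d hd
    by_cases h : ε ∈ q.dom
    · rw [if_pos h] at hd; exact q.lt ε h d hd
    · rw [if_neg h] at hd
      rcases hε with rfl | hε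
      · exact h1 d hd
      · exact absurd hε h
  fin := by
    intro ε hε β hβ
    by_cases h : ε ∈ q.dom
    · simp only [if_pos h]; exact q.fin ε h β hβ
    · simp only [if_neg h]
      rcases hε with rfl | hε
      · exact h2 β hβ
      · exact absurd hε h

theorem Lad.extend_le (q : Lad W) (δ : W) (A : Set W) (h1 : ∀ d ∈ A, d < δ)
    (h2 : ∀ β < δ, ∃ S : Finset W, ∀ d ∈ A, d ≤ β → d ∈ S) : q.extend δ A h1 h2 ≤ q :=
  ⟨subset_insert _ _, fun ε hε => if_pos hε⟩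

theorem Lad.mem_extend (q : Lad W) (δ : W) (A : Set W) (h1 : ∀ d ∈ A, d < δ)
    (h2 : ∀ β < δ, ∃ S : Finset W, ∀ d ∈ A, d ≤ β → d ∈ S) : δ ∈ (q.extend δ A h1 h2).dom :=
  mem_insert _ _

theorem Lad.extend_E (q : Lad W) (δ : W) (A : Set W) (h1 : ∀ d ∈ A, d < δ)
    (h2 : ∀ β < δ, ∃ S : Finset W, ∀ d ∈ A, d ≤ β → d ∈ S) (h : δ ∉ q.dom) :
    (q.extend δ A h1 h2).E δ = A := if_neg h

variable {Ω : Type} [MeasurableSpace Ω] {μ : Measure Ω}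

/-- The name of the generic ladder system. -/
def ladN (δ d : W) : Set (Lad W × Ev μ) := {p | δ ∈ p.1.dom ∧ d ∈ p.1.E δ}

theorem ladN_meets_of {δ d : W} {p : Lad W × Ev μ} (h1 : δ ∈ p.1.dom) (h2 : d ∈ p.1.E δ) :
    p ∈ meets (ladN (μ := μ) δ d) := fun q hq => ⟨q, le_rfl, p, ⟨h1, h2⟩, hq⟩

theorem ladN_meets {δ d : W} {p : Lad W × Ev μ} (h : p ∈ meets (ladN (μ := μ) δ d)) :
    ∃ r ≤ p, δ ∈ r.1.dom ∧ d ∈ r.1.E δ := by
  obtain ⟨r, hr, s, hs, hrs⟩ := h p le_rfl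
  refine ⟨r, hr, hrs.1.1 hs.1, ?_⟩
  rw [hrs.1.2 δ hs.1]
  exact hs.2

theorem isLadderN (p : Lad W × Ev μ) :
    p ∈ IsLadderN (Lad W × Ev μ) (ladN (W := W) (μ := μ)) := by
  constructor
  · intro δ d
    refine mem_fimp_of fun q _ hq => ?_
    obtain ⟨r, _, h1, h2⟩ := ladN_meets hq
    exact r.1.lt δ h1 d h2
  · intro δ β
    refine mem_fimp_of fun q _ hβ => ?_
    have hβ' : β < δ := hβ
    refine mem_fex.2 ?_
    rintro ⟨q1, b1⟩ _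
    obtain ⟨q2, hq2, hδ⟩ : ∃ q2 ≤ q1, δ ∈ q2.dom :=
      ⟨q1.extend δ ∅ (fun d hd => absurd hd (notMem_empty d))
        (fun _ _ => ⟨∅, fun d hd => absurd hd (notMem_empty d)⟩), Lad.extend_le _ _ _ _ _,
        Lad.mem_extend _ _ _ _ _⟩
    obtain ⟨S, hS⟩ := q2.fin δ hδ β hβ'
    refine ⟨(q2, b1), ⟨hq2, le_rfl⟩, S, fun d => mem_fimp_of fun t ht htd => mem_fimp_of
      fun t' _ hd => ?_⟩
    obtain ⟨r, hr, h1, h2⟩ := ladN_meets htd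
    have h3 : r ≤ (q2, b1) := hr.trans ht
    rw [h3.1.2 δ hδ] at h2
    exact hS d h2 hd

variable [IsProbabilityMeasure μ]

/-- One step: a finite set above `γ` which meets `A` almost surely. -/
theorem step (A : W → Set (Lad W × Ev μ)) {q0 : Lad W} {b0 : Ev μ}
    (hA : (q0, b0) ∈ CofN (Lad W × Ev μ) A) (q : Lad W) (hq : q ≤ q0) (γ : W) (ε : ℝ≥0∞)
    (hε : ε ≠ 0) :
    ∃ q' ≤ q, ∃ S : Finset W, (∀ v ∈ S, γ < v) ∧ ∃ F : Set Ω, MeasurableSet F ∧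
      μ (b0.1 \ F) < ε ∧ ∀ c : Ev μ, c.1 ⊆ F → ∃ v ∈ S, ∃ c' : Ev μ, c' ≤ c ∧
        FF μ (A v) q' c'.1 := by
  classical
  obtain ⟨q', hq', c, hc, hcov⟩ := exhaust (μ := μ) lad_sigmaClosed
    (fun q c => ∃ v, γ < v ∧ FF μ (A v) q c) (fun q q' c hq ⟨v, hv, h⟩ => ⟨v, hv, h.down hq⟩)
    q b0 (by
      intro q1 hq1 c hc
      obtain ⟨⟨q2, c2⟩, ⟨hq2, hc2⟩, v, hv, hγ⟩ := mem_fex.1 (hA γ) (q1, c) ⟨hq1.trans hq, hc⟩
      exact ⟨q2, hq2, c2, hc2, v, hγ, FF_of_meets hv⟩)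
  choose v hv1 hv2 using fun k => (hc k).2.2
  -- finitely many sets suffice
  have hmono : Monotone fun n : ℕ => ⋃ k ∈ Finset.range n, c k := by
    intro m n hmn
    apply biUnion_subset_biUnion_left
    intro k hk
    exact Finset.mem_coe.2 (Finset.mem_range.2 ((Finset.mem_range.1 hk).trans_le hmn))
  have hlim : Tendsto (fun n : ℕ => μ (b0.1 \ ⋃ k ∈ Finset.range n, c k)) atTop
      (𝓝 (μ (⋂ n : ℕ, b0.1 \ ⋃ k ∈ Finset.range n, c k))) := by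
    apply tendsto_measure_iInter_atTop
    · intro n
      exact (b0.2.1.diff (Finset.measurableSet_biUnion _ fun k _ => (hc k).1)).nullMeasurableSet
    · intro m n hmn
      exact sdiff_subset_sdiff_right (hmono hmn)
    · exact ⟨0, measure_ne_top μ _⟩
  have hzero : μ (⋂ n : ℕ, b0.1 \ ⋃ k ∈ Finset.range n, c k) = 0 := by
    refine measure_mono_null ?_ hcov
    intro ω hω
    rw [mem_iInter] at hω
    refine ⟨(hω 0).1, fun h => ?_⟩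
    obtain ⟨k, hk⟩ := mem_iUnion.1 h
    exact (hω (k + 1)).2 (mem_biUnion (Finset.mem_coe.2 (Finset.mem_range.2 (Nat.lt_succ_self k))) hk)
  rw [hzero] at hlim
  obtain ⟨n, hn⟩ := (hlim.eventually_lt_const (pos_iff_ne_zero.2 hε)).exists
  refine ⟨q', hq', (Finset.range n).image v, ?_, ⋃ k ∈ Finset.range n, c k,
    Finset.measurableSet_biUnion _ fun k _ => (hc k).1, hn, ?_⟩
  · intro w hw
    obtain ⟨k, _, rfl⟩ := Finset.mem_image.1 hw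
    exact hv1 k
  · intro d hd
    have h1 : ∃ k ∈ Finset.range n, μ (d.1 ∩ c k) ≠ 0 := by
      by_contra hcon
      push Not at hcon
      apply d.2.2
      have h2 : d.1 ⊆ ⋃ k ∈ Finset.range n, d.1 ∩ c k := by
        intro ω hω
        obtain ⟨k, hk, hωk⟩ := mem_iUnion₂.1 (hd hω)
        exact mem_biUnion hk ⟨hω, hωk⟩
      refine measure_mono_null h2 ?_
      exact (measure_biUnion_null_iff (Finset.range n).countable_toSet).2 fun k hk => hcon k hk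
    obtain ⟨k, hk, hpos⟩ := h1
    exact ⟨v k, Finset.mem_image_of_mem v hk, d.inter (c k) (hc k).1 hpos, inter_subset_left,
      (hv2 k).mono inter_subset_right⟩

/-- what one double step achieves -/
def Good (A B : W → Set (Lad W × Ev μ)) (b0 : Ev μ) (n : ℕ) (γ : W) (q' : Lad W) (γ' : W)
    (S : Finset W) : Prop :=
  γ < γ' ∧ (∀ v ∈ S, γ < v ∧ v < γ') ∧ (∀ ε ∈ q'.dom, ε < γ') ∧
    (∃ F : Set Ω, MeasurableSet F ∧ μ (b0.1 \ F) < (n + 1 : ℝ≥0∞)⁻¹ ∧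
      ∀ c : Ev μ, c.1 ⊆ F → ∃ v ∈ S, ∃ c' : Ev μ, c' ≤ c ∧ FF μ (A v) q' c'.1) ∧
    (∃ F : Set Ω, MeasurableSet F ∧ μ (b0.1 \ F) < (n + 1 : ℝ≥0∞)⁻¹ ∧
      ∀ c : Ev μ, c.1 ⊆ F → ∃ v ∈ S, ∃ c' : Ev μ, c' ≤ c ∧ FF μ (B v) q' c'.1)

theorem double_step (hW : Nonempty W) (hb : SeqBdd W) (A B : W → Set (Lad W × Ev μ)) {q0 : Lad W}
    {b0 : Ev μ} (hA : (q0, b0) ∈ CofN (Lad W × Ev μ) A) (hB : (q0, b0) ∈ CofN (Lad W × Ev μ) B)
    (n : ℕ) (q : Lad W) (hq : q ≤ q0) (γ : W) :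
    ∃ q' ≤ q, ∃ (γ' : W) (S : Finset W), Good A B b0 n γ q' γ' S := by
  classical
  have hε : (n + 1 : ℝ≥0∞)⁻¹ ≠ 0 := by
    apply ENNReal.inv_ne_zero.2
    exact ENNReal.add_ne_top.2 ⟨ENNReal.natCast_ne_top n, ENNReal.one_ne_top⟩
  obtain ⟨q1, hq1, S1, hS1, F1, hF1m, hF1, hF1c⟩ := step A hA q hq γ _ hε
  obtain ⟨q2, hq2, S2, hS2, F2, hF2m, hF2, hF2c⟩ := step B hB q1 (hq1.trans hq) γ _ hε
  have hct : (((S1 ∪ S2 : Finset W) : Set W) ∪ q2.dom ∪ {γ}).Countable :=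
    ((Finset.countable_toSet _).union q2.ctble).union (countable_singleton γ)
  obtain ⟨γ', hγ'⟩ := set_bdd hW hb hct
  refine ⟨q2, hq2.trans hq1, γ', S1 ∪ S2, hγ' γ (Or.inr rfl), ?_, ?_, ⟨F1, hF1m, hF1, ?_⟩,
    ⟨F2, hF2m, hF2, ?_⟩⟩
  · intro v hv
    refine ⟨?_, hγ' v (Or.inl (Or.inl hv))⟩
    rcases Finset.mem_union.1 hv with h | h
    · exact hS1 v h
    · exact hS2 v h
  · intro ε hε'
    exact hγ' ε (Or.inl (Or.inr hε'))
  · intro c hc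
    obtain ⟨v, hv, c', hc', h⟩ := hF1c c hc
    exact ⟨v, Finset.mem_union_left _ hv, c', hc', h.down hq2⟩
  · intro c hc
    obtain ⟨v, hv, c', hc', h⟩ := hF2c c hc
    exact ⟨v, Finset.mem_union_right _ hv, c', hc', h⟩

theorem catchAt_aux {A : W → Set (Lad W × Ev μ)} {b0 : Ev μ} {δ : W} {γ : ℕ → W} {qω : Lad W}
    {q : ℕ → Lad W} {S : ℕ → Finset W} (hqω : ∀ n, qω ≤ q n) (hδ : δ ∈ qω.dom)
    (hE : ∀ n, ∀ v ∈ S n, v ∈ qω.E δ) (hγ : ∀ n, ∀ v ∈ S n, γ n < v) (hmono : Monotone γ)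
    (hcof : ∀ β < δ, ∃ n, β ≤ γ n)
    (hF : ∀ n : ℕ, ∃ F : Set Ω, MeasurableSet F ∧ μ (b0.1 \ F) < (n + 1 : ℝ≥0∞)⁻¹ ∧
      ∀ c : Ev μ, c.1 ⊆ F → ∃ v ∈ S n, ∃ c' : Ev μ, c' ≤ c ∧ FF μ (A v) (q n) c'.1)
    {p : Lad W × Ev μ} (hp : p ≤ (qω, b0)) :
    p ∈ CatchAtN (Lad W × Ev μ) (ladN (W := W) (μ := μ)) A δ := by
  intro β
  refine mem_fimp_of fun s hs hβ => mem_fex.2 ?_
  rintro ⟨q1, c1⟩ ht
  have hle : (q1, c1) ≤ (qω, b0) := ht.trans (hs.trans hp)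
  obtain ⟨n0, hn0⟩ := hcof β hβ
  -- a large index
  obtain ⟨n1, hn1⟩ : ∃ n1 : ℕ, (n1 : ℝ≥0∞)⁻¹ < μ c1.1 := ENNReal.exists_inv_nat_lt c1.2.2
  obtain ⟨F, hFm, hFμ, hFc⟩ := hF (max n0 n1)
  have hpos : μ (c1.1 ∩ F) ≠ 0 := by
    intro h0
    have h1 : μ c1.1 ≤ μ (c1.1 ∩ F) + μ (b0.1 \ F) := by
      refine (measure_mono ?_).trans (measure_union_le _ _)
      intro ω hω
      by_cases h : ω ∈ F
      · exact Or.inl ⟨hω, h⟩
      · exact Or.inr ⟨hle.2 hω, h⟩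
    rw [h0, zero_add] at h1
    have h2 : ((max n0 n1 : ℕ) + 1 : ℝ≥0∞)⁻¹ ≤ (n1 : ℝ≥0∞)⁻¹ := by
      apply ENNReal.inv_le_inv.2
      calc (n1 : ℝ≥0∞) ≤ ((max n0 n1 : ℕ) : ℝ≥0∞) := by exact_mod_cast le_max_right _ _
        _ ≤ _ := le_self_add
    exact absurd (h1.trans_lt (hFμ.trans_le (h2.trans hn1.le))) (lt_irrefl _)
  obtain ⟨v, hv, c', hc', hFF⟩ := hFc (c1.inter F hFm hpos) inter_subset_right
  have hc'1 : c' ≤ c1 := hc'.trans inter_subset_left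
  refine ⟨(q1, c'), ⟨le_rfl, hc'1⟩, v, ?_, ?_, ?_⟩
  · exact down_meets (hFF c' Subset.rfl) ⟨hle.1.trans (hqω _), le_rfl⟩
  · have h1 : q1 ≤ qω := hle.1
    refine ladN_meets_of (h1.1 hδ) ?_
    show v ∈ q1.E δ
    rw [h1.2 δ hδ]
    exact hE _ v hv
  · exact (hn0.trans (hmono (le_max_left n0 n1))).trans_lt (hγ _ v hv)

theorem catchesN (hW : Nonempty W) (hwo : WellOrd W) (hb : SeqBdd W) (p : Lad W × Ev μ) :
    p ∈ CatchesN (Lad W × Ev μ) (ladN (W := W) (μ := μ)) := by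
  intro A B
  refine mem_fimp_of fun p1 _ hA1 => mem_fimp.2 ?_
  rintro ⟨q0, b0⟩ hp2 hB
  have hA : (q0, b0) ∈ CofN (Lad W × Ev μ) A := fun β => down_fex (hA1 β) hp2
  obtain ⟨w0⟩ := hW
  have h : ∀ (n : ℕ) (s : {q : Lad W // q ≤ q0} × W), ∃ s' : ({q : Lad W // q ≤ q0} × W) × Finset W,
      s'.1.1.1 ≤ s.1.1 ∧ Good A B b0 n s.2 s'.1.1.1 s'.1.2 s'.2 := by
    rintro n ⟨⟨q, hq⟩, γ⟩
    obtain ⟨q', hq', γ', S, hg⟩ := double_step ⟨w0⟩ hb A B hA hB n q hq γ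
    exact ⟨((⟨q', hq'.trans hq⟩, γ'), S), hq', hg⟩
  choose f hf1 hf2 using h
  let st : ℕ → {q : Lad W // q ≤ q0} × W := fun n => Nat.rec (⟨q0, le_rfl⟩, w0) (fun k s => (f k s).1) n
  let S : ℕ → Finset W := fun n => (f n (st n)).2
  let γ : ℕ → W := fun n => (st n).2
  let q : ℕ → Lad W := fun n => (st n).1.1
  have hq : ∀ n, q (n + 1) ≤ q n := fun n => hf1 n (st n)
  have hgood : ∀ n, Good A B b0 n (γ n) (q (n + 1)) (γ (n + 1)) (S n) := fun n => hf2 n (st n)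
  have hγ : ∀ n, γ n < γ (n + 1) := fun n => (hgood n).1
  have hγm : StrictMono γ := strictMono_nat_of_lt_succ hγ
  obtain ⟨w1, hw1⟩ := hb γ
  obtain ⟨δ, hδ1, hδ2⟩ := hwo {w | ∀ n, γ n < w} ⟨w1, hw1⟩
  have hcof : ∀ β < δ, ∃ n, β ≤ γ n := by
    intro β hβ
    by_contra hc
    push Not at hc
    exact absurd (hδ2 β hc) (not_le.2 hβ)
  -- the ladder
  let D : Set W := {d | ∃ n, d ∈ S n}
  have hDlt : ∀ d ∈ D, d < δ := by
    rintro d ⟨n, hn⟩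
    exact ((hgood n).2.1 d hn).2.trans (hδ1 (n + 1))
  have hDfin : ∀ β < δ, ∃ T : Finset W, ∀ d ∈ D, d ≤ β → d ∈ T := by
    classical
    intro β hβ
    obtain ⟨n, hn⟩ := hcof β hβ
    refine ⟨(Finset.range n).biUnion S, ?_⟩
    rintro d ⟨m, hm⟩ hd
    rw [Finset.mem_biUnion]
    refine ⟨m, ?_, hm⟩
    rw [Finset.mem_range]
    by_contra hmn
    rw [not_lt] at hmn
    have h1 : γ n ≤ γ m := hγm.monotone hmn
    exact absurd (h1.trans_lt ((hgood m).2.1 d hm).1) (not_lt.2 (hd.trans hn))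
  let q' : Lad W := Lad.union q hq
  have hδnot : δ ∉ q'.dom := by
    intro h
    obtain ⟨n, hn⟩ := mem_iUnion.1 h
    have h1 : δ ∈ (q (n + 1)).dom := (hq n).1 hn
    exact lt_asymm ((hgood n).2.2.1 δ h1) (hδ1 (n + 1))
  let qω : Lad W := q'.extend δ D hDlt hDfin
  have hqω' : ∀ n, qω ≤ q n := fun n => (Lad.extend_le _ _ _ _ _).trans (Lad.union_le q hq n)
  have hδdom : δ ∈ qω.dom := Lad.mem_extend _ _ _ _ _
  have hEδ : qω.E δ = D := Lad.extend_E _ _ _ _ _ hδnot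
  refine ⟨(qω, b0), ⟨hqω' 0, le_rfl⟩, mem_fex_of δ fun s hs => ⟨?_, ?_, ?_⟩⟩
  · exact mem_fex_of (γ 0) fun _ _ => hδ1 0
  · exact catchAt_aux (γ := γ) (q := fun n => q (n + 1)) (S := S) (fun n => hqω' (n + 1)) hδdom
      (fun n v hv => by rw [hEδ]; exact ⟨n, hv⟩) (fun n v hv => ((hgood n).2.1 v hv).1)
      hγm.monotone hcof (fun n => (hgood n).2.2.2.1) hs
  · exact catchAt_aux (γ := γ) (q := fun n => q (n + 1)) (S := S) (fun n => hqω' (n + 1)) hδdom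
      (fun n v hv => by rw [hEδ]; exact ⟨n, hv⟩) (fun n v hv => ((hgood n).2.1 v hv).1)
      hγm.monotone hcof (fun n => (hgood n).2.2.2.2) hs

/-- All conditions force the hypothesis. -/
theorem forced_hypothesis (hW : Nonempty W) (hwo : WellOrd W) (hc : CtbleInit W) (hb : SeqBdd W)
    (p : Lad W × Ev (mu (Set (Par (Lad W) W)))) :
    p ∈ HypothesisN (Lad W × Ev (mu (Set (Par (Lad W) W)))) W := by
  refine ⟨hW, forced_wellOrd hwo p, forced_ctbleInit hc p, forced_seqBdd lad_sigmaClosed hb p, ?_,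
    forced_avoid lad_sigmaClosed p⟩
  exact mem_fex_of ladN fun q _ => ⟨isLadderN q, catchesN hW hwo hb q⟩

end Pool.Agent.V7H73.DW
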