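import Mathlib
import Pool.Agent.V7H73.DW.Dowker

set_option autoImplicit false

/-!
# All sets of `ℵ₁` reals are meagre; compactness of the neighbourhoods
-/

namespace Pool.Agent.V7H73.DW

open Set Filter Topology Cardinal

/-- A Lusin set: an uncountable set of reals which meets every meagre set in a countable set. -/
def IsLusin (L : Set ℝ) : Prop :=
  ¬ L.Countable ∧ ∀ M : Set ℝ, IsMeagre M → (L ∩ M).Countable

/-- total length of the first blocks -/
def s (n : ℕ) : ℕ := n * n

/-- the digits of `x` in the block `[s n - n, s n)`, read as a natural number -/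
noncomputable def blk (x : ℝ) (n : ℕ) : ℕ := (⌊x * 2 ^ (s n)⌋ % 2 ^ n).toNat

theorem blk_eq {x : ℝ} {n : ℕ} {c : ℤ} {h : ℕ} (hh : h < 2 ^ n)
    (h1 : ((c * 2 ^ n + h : ℤ) : ℝ) ≤ x * 2 ^ (s n)) (h2 : x * 2 ^ (s n) < ((c * 2 ^ n + h : ℤ) : ℝ) + 1) :
    blk x n = h := by
  have h3 : ⌊x * 2 ^ (s n)⌋ = c * 2 ^ n + h := by
    rw [Int.floor_eq_iff]
    exact ⟨h1, h2⟩
  unfold blk
  rw [h3]
  have h4 : (c * 2 ^ n + (h : ℤ)) % 2 ^ n = h := by
    rw [add_comm, Int.add_mul_emod_self_right]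
    apply Int.emod_eq_of_lt (by positivity)
    exact_mod_cast hh
  rw [h4]
  simp

theorem nowhere {h : ℕ → ℕ} (hh : ∀ n, h n < 2 ^ n) (m : ℕ) :
    IsNowhereDense {x : ℝ | ∀ n, m ≤ n → blk x n ≠ h n} := by
  set M : Set ℝ := {x : ℝ | ∀ n, m ≤ n → blk x n ≠ h n} with hM
  rw [IsNowhereDense, eq_empty_iff_forall_notMem]
  intro x0 hx0
  obtain ⟨ε, hε, hball⟩ := Metric.isOpen_iff.1 isOpen_interior x0 hx0
  -- a large block
  obtain ⟨n, hmn, hn1, hn⟩ : ∃ n, m ≤ n ∧ 1 ≤ n ∧ (1 / 2 : ℝ) ^ (s n - n) < ε := by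
    have ht : Tendsto (fun n : ℕ => (1 / 2 : ℝ) ^ n) atTop (𝓝 0) :=
      tendsto_pow_atTop_nhds_zero_of_lt_one (by norm_num) (by norm_num)
    obtain ⟨N, hN⟩ := eventually_atTop.1 (ht.eventually_lt_const hε)
    refine ⟨max m N + 2, by omega, by omega, hN _ ?_⟩
    unfold s
    have h1 : (max m N + 2) * (max m N + 2) ≥ (max m N + 2) * 2 := Nat.mul_le_mul le_rfl (by omega)
    omega
  have hsn : s n = (s n - n) + n := by
    have : n ≤ s n := by unfold s; nlinarith
    omega
  set q : ℕ := s n - n with hq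
  have h2q : (0 : ℝ) < 2 ^ q := by positivity
  have h2n : (0 : ℝ) < 2 ^ n := by positivity
  set c : ℤ := ⌊x0 * 2 ^ q⌋ with hc
  set a : ℝ := ((c * 2 ^ n + h n : ℤ) : ℝ) / 2 ^ (s n) with ha
  set b : ℝ := (((c * 2 ^ n + h n : ℤ) : ℝ) + 1) / 2 ^ (s n) with hb
  have hsn' : (2 : ℝ) ^ (s n) = 2 ^ q * 2 ^ n := by rw [hsn, pow_add]
  have hs0 : (0 : ℝ) < 2 ^ (s n) := by positivity
  have hab : a < b := by
    rw [ha, hb]
    exact div_lt_div_of_pos_right (by linarith) hs0
  have hc1 : (c : ℝ) ≤ x0 * 2 ^ q := Int.floor_le _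
  have hc2 : x0 * 2 ^ q < c + 1 := Int.lt_floor_add_one _
  have hhn : ((h n : ℕ) : ℝ) + 1 ≤ 2 ^ n := by exact_mod_cast hh n
  have hpow : (1 / 2 : ℝ) ^ q = 1 / 2 ^ q := by rw [one_div_pow]
  -- the interval is close to `x0`
  have ha' : x0 - ε < a := by
    have h1 : x0 * 2 ^ q - 1 < c := by linarith
    have h2 : (x0 - (1 / 2) ^ q) * 2 ^ (s n) < ((c * 2 ^ n + h n : ℤ) : ℝ) := by
      rw [hsn', hpow]
      have : (x0 - 1 / 2 ^ q) * (2 ^ q * 2 ^ n) = (x0 * 2 ^ q - 1) * 2 ^ n := by
        field_simp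
      rw [this]
      push_cast
      have h3 : (x0 * 2 ^ q - 1) * 2 ^ n < (c : ℝ) * 2 ^ n := mul_lt_mul_of_pos_right h1 h2n
      have h4 : (0 : ℝ) ≤ (h n : ℕ) := Nat.cast_nonneg _
      linarith
    have h3 : x0 - (1 / 2) ^ q < a := by
      rw [ha, lt_div_iff₀ hs0]; exact h2
    linarith
  have hb' : b < x0 + ε := by
    have h2 : ((c * 2 ^ n + h n : ℤ) : ℝ) + 1 ≤ (x0 + (1 / 2) ^ q) * 2 ^ (s n) := by
      rw [hsn', hpow]
      have : (x0 + 1 / 2 ^ q) * (2 ^ q * 2 ^ n) = (x0 * 2 ^ q + 1) * 2 ^ n := by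
        field_simp
      rw [this]
      push_cast
      have h3 : (c : ℝ) * 2 ^ n ≤ (x0 * 2 ^ q) * 2 ^ n := mul_le_mul_of_nonneg_right hc1 h2n.le
      linarith
    have h3 : b ≤ x0 + (1 / 2) ^ q := by
      rw [hb, div_le_iff₀ hs0]; exact h2
    linarith
  set y : ℝ := (a + b) / 2 with hy
  have hya : a < y := by rw [hy]; linarith
  have hyb : y < b := by rw [hy]; linarith
  have hyU : y ∈ interior (closure M) := by
    apply hball
    rw [Metric.mem_ball, Real.dist_eq, abs_lt]
    constructor <;> linarith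
  have hycl : y ∈ closure M := interior_subset hyU
  obtain ⟨z, hz1, hz2⟩ := mem_closure_iff.1 hycl (Ioo a b) isOpen_Ioo ⟨hya, hyb⟩
  refine hz2 n hmn (blk_eq (c := c) (hh n) ?_ ?_)
  · have := hz1.1
    rw [ha, div_lt_iff₀ hs0] at this
    exact this.le
  · have := hz1.2
    rw [hb, lt_div_iff₀ hs0] at this
    exact this

theorem meagre_of_avoid {W : Type} (h : Avoid W) (S : Set ℝ) (hS : #S ≤ #W) : IsMeagre S := by
  rcases S.eq_empty_or_nonempty with rfl | ⟨x0, hx0⟩
  · exact IsMeagre.empty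
  obtain ⟨e⟩ : Nonempty (S ↪ W) := by rwa [Cardinal.le_def] at hS
  have : Nonempty S := ⟨⟨x0, hx0⟩⟩
  let g : W → S := Function.invFun e
  have hg : ∀ x : S, g (e x) = x := Function.leftInverse_invFun e.injective
  obtain ⟨f, hf1, hf2⟩ := h fun α n => blk (g α) n
  have hsub : S ⊆ ⋃ m : ℕ, {x : ℝ | ∀ n, m ≤ n → blk x n ≠ f n} := by
    intro x hx
    obtain ⟨m, hm⟩ := hf2 (e ⟨x, hx⟩)
    rw [mem_iUnion]
    refine ⟨m, fun n hn => ?_⟩
    have := hm n hn
    rwa [hg] at this
  exact (isMeagre_iUnion fun m => (nowhere hf1 m).isMeagre).mono hsub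

variable {W : Type} [LinearOrder W]

theorem mk_eq_aleph_one (hW : Nonempty W) (hwo : WellOrd W) (hc : CtbleInit W) (hb : SeqBdd W) :
    #W = ℵ₁ := by
  apply le_antisymm
  · by_contra hlt
    rw [not_le] at hlt
    have : WellFoundedLT W := ⟨wf_of_wellOrd hwo⟩
    have h1 : (ℵ₁ : Cardinal.{0}).ord < Ordinal.type ((· < ·) : W → W → Prop) := by
      by_contra h
      rw [not_lt] at h
      have := Ordinal.card_le_card h
      rw [Ordinal.card_type, Cardinal.card_ord] at this
      exact absurd hlt (not_lt.2 this)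
    obtain ⟨w, hw⟩ := Ordinal.typein_surj ((· < ·) : W → W → Prop) h1
    have h2 := Ordinal.card_typein (r := ((· < ·) : W → W → Prop)) w
    rw [hw, Cardinal.card_ord] at h2
    have h3 : #{y : W // y < w} ≤ ℵ₀ := by
      rw [Cardinal.mk_le_aleph0_iff]
      exact (init_countable hc w).to_subtype
    rw [← h2] at h3
    exact absurd h3 (not_le.2 (by rw [← Cardinal.succ_aleph0]; exact Order.lt_succ _))
  · rw [← Cardinal.succ_aleph0, Order.succ_le_iff, ← not_le, Cardinal.mk_le_aleph0_iff]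
    intro hcount
    obtain ⟨w, hw⟩ := set_bdd hW hb (countable_univ : (univ : Set W).Countable)
    exact lt_irrefl _ (hw w trivial)

/-- The neighbourhoods `N β x` are compact. -/
theorem isCompact_N (hwf : WellFounded ((· < ·) : W → W → Prop)) {D : W → Set W}
    (hD : IsLadder D) : ∀ (δ β : W) (n : ℕ), β < δ → IsCompact (N D β (δ, n)) := by
  classical
  intro δ
  induction δ using hwf.induction with
  | h δ ih =>
    intro β n hβ
    rcases n with _ | n
    · have : N D β (δ, 0) = {(show Sp D from (δ, 0))} := by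
        apply Set.eq_singleton_iff_unique_mem.2
        refine ⟨mem_N, ?_⟩
        intro z hz
        rcases Nb.level hz with h | h
        · exact h
        · exact absurd h (Nat.not_lt_zero _)
      rw [this]
      exact isCompact_singleton
    · apply isCompact_of_finite_subcover
      intro ι U hU hcov
      obtain ⟨i0, hi0⟩ := mem_iUnion.1 (hcov (mem_N (D := D) (β := β) (x := (δ, n + 1))))
      obtain ⟨γ, hγ, hsub⟩ := isOpen_iff.1 (hU i0) (δ, n + 1) hi0 ⟨β, hβ⟩
      obtain ⟨S, hS⟩ := hD.2 δ γ hγ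
      let L : W → Set (Sp D) := fun e =>
        if h : ∃ d, β ≤ e ∧ Consec D δ e d then N D e (h.choose, n) else ∅
      have hL : ∀ e, IsCompact (L e) := by
        intro e
        by_cases h : ∃ d, β ≤ e ∧ Consec D δ e d
        · simp only [L, h, dif_pos]
          exact ih _ (hD.1 δ _ h.choose_spec.2.2.1) e n h.choose_spec.2.2.2.1
        · simp only [L, h, dif_neg, not_false_eq_true]
          exact isCompact_empty
      have hLsub : ∀ e, L e ⊆ N D β (δ, n + 1) := by
        intro e z hz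
        by_cases h : ∃ d, β ≤ e ∧ Consec D δ e d
        · simp only [L, h, dif_pos] at hz
          exact Nb.step _ _ _ _ _ _ h.choose_spec.1 h.choose_spec.2 hz
        · simp only [L, h, dif_neg, not_false_eq_true] at hz
          exact absurd hz (notMem_empty z)
      have hcomp : IsCompact (⋃ e ∈ S, L e) := S.isCompact_biUnion fun e _ => hL e
      obtain ⟨t, ht⟩ := hcomp.elim_finite_subcover U hU
        ((iUnion₂_subset fun e _ => hLsub e).trans hcov)
      refine ⟨insert i0 t, ?_⟩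
      intro z hz
      by_cases hzU : Nb D γ (δ, n + 1) z
      · exact mem_biUnion (Finset.mem_insert_self i0 t) (hsub z hzU)
      · have hzL : z ∈ ⋃ e ∈ S, L e := by
          have hz' : Nb D β (δ, n + 1) z := hz
          cases hz' with
          | self => exact absurd (Nb.self _ _) hzU
          | step _ _ e d _ _ h1 h2 h3 =>
            have hlt : e < γ := by
              by_contra h
              exact hzU (Nb.step _ _ _ _ _ _ (not_lt.1 h) h2 h3)
            have heS : e ∈ S := hS e h2.1 hlt.le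
            refine mem_biUnion heS ?_
            have hex : ∃ d, β ≤ e ∧ Consec D δ e d := ⟨d, h1, h2⟩
            have hd : hex.choose = d := by
              have h3' := hex.choose_spec.2
              rcases lt_trichotomy d hex.choose with h | h | h
              · exact absurd ⟨h2.2.2.1, h⟩ (h3'.2.2.2 d h2.2.1)
              · exact h.symm
              · exact absurd ⟨h3'.2.2.1, h⟩ (h2.2.2.2 _ h3'.2.1)
            simp only [L, hex, dif_pos]
            show Nb D e (hex.choose, n) z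
            rw [hd]
            exact h3
        obtain ⟨i, hi, hzi⟩ := mem_iUnion₂.1 (ht hzL)
        exact mem_biUnion (Finset.mem_insert_of_mem hi) hzi

/-- The space is locally compact. -/
theorem locCompact (hwf : WellFounded ((· < ·) : W → W → Prop)) {D : W → Set W}
    (hD : IsLadder D) : LocallyCompactSpace (Sp D) := by
  refine ⟨fun x U hU => ?_⟩
  obtain ⟨V, hVU, hV, hxV⟩ := mem_nhds_iff.1 hU
  by_cases hex : ∃ β, β < x.1
  · obtain ⟨β, hβ, h⟩ := isOpen_iff.1 hV x hxV hex
    exact ⟨N D β x, (isOpen_N hβ).mem_nhds mem_N, fun z hz => hVU (h z hz),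
      isCompact_N hwf hD x.1 β x.2 hβ⟩
  · refine ⟨{x}, (isOpen_bot hex).mem_nhds rfl, ?_, isCompact_singleton⟩
    rintro z rfl
    exact hVU hxV

/-- The levels are discrete. -/
theorem discrete_level {D : W → Set W} (n : ℕ) :
    DiscreteTopology ({x : W × ℕ | x.2 = n} : Set (Sp D)) := by
  rw [discreteTopology_iff_isOpen_singleton]
  rintro ⟨x, hx⟩
  have hx' : x.2 = n := hx
  by_cases hex : ∃ β, β < x.1
  · obtain ⟨β, hβ⟩ := hex
    refine ⟨N D β x, isOpen_N hβ, ?_⟩
    ext ⟨z, hz⟩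
    have hz' : z.2 = n := hz
    simp only [mem_preimage, mem_singleton_iff, Subtype.mk.injEq]
    constructor
    · intro h
      rcases Nb.level h with h1 | h1
      · exact h1
      · exact absurd h1 (by rw [hz', hx']; exact lt_irrefl _)
    · rintro rfl
      exact mem_N
  · refine ⟨{x}, isOpen_bot hex, ?_⟩
    ext ⟨z, hz⟩
    simp

/-- The conclusion drawn from the hypothesis: there is a Dowker space of size `ℵ₁` which is first
countable, locally countable, locally compact and a countable union of discrete subspaces, while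
every set of at most `ℵ₁` reals is meagre and there is no Lusin set. -/
theorem conclusion (H : Hypothesis W) :
    (∃ (X : Type) (_ : TopologicalSpace X), IsDowker X ∧ FirstCountableTopology X ∧
      (∀ x : X, ∃ U : Set X, IsOpen U ∧ x ∈ U ∧ U.Countable) ∧ #X = ℵ₁ ∧
      LocallyCompactSpace X ∧
      ∃ A : ℕ → Set X, (⋃ n, A n) = Set.univ ∧ ∀ n, DiscreteTopology (A n)) ∧
    (∀ S : Set ℝ, #S ≤ ℵ₁ → IsMeagre S) ∧ ¬ ∃ L : Set ℝ, IsLusin L := by
  obtain ⟨hW, hwo, hc, hb, ⟨D, hD, hC⟩, hA⟩ := H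
  have hwf := wf_of_wellOrd hwo
  have hcard : #W = ℵ₁ := mk_eq_aleph_one hW hwo hc hb
  have hm : ∀ S : Set ℝ, #S ≤ ℵ₁ → IsMeagre S := fun S hS =>
    meagre_of_avoid hA S (hS.trans_eq hcard.symm)
  refine ⟨⟨Sp D, inferInstance, ⟨t1 hD, normal hwf hD hc hb hC, not_cp hW hb hD hC⟩,
    firstCountable hc, locallyCountable hc hD, ?_, locCompact hwf hD,
    fun n => {x : W × ℕ | x.2 = n}, ?_, fun n => discrete_level n⟩, hm, ?_⟩
  · show #(W × ℕ) = ℵ₁
    rw [Cardinal.mk_prod, Cardinal.lift_id, Cardinal.lift_id, hcard, Cardinal.mk_nat]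
    exact Cardinal.mul_eq_left (Cardinal.aleph0_le_aleph 1) (Cardinal.aleph0_le_aleph 1)
      Cardinal.aleph0_ne_zero
  · rw [eq_univ_iff_forall]
    intro x
    exact mem_iUnion.2 ⟨x.2, rfl⟩
  · rintro ⟨L, hL1, hL2⟩
    have h1 : ℵ₁ ≤ #L := by
      rw [← Cardinal.succ_aleph0, Order.succ_le_iff, ← not_le, Cardinal.mk_le_aleph0_iff]
      intro h
      exact hL1 h
    obtain ⟨S, hSL, hS⟩ := Cardinal.le_mk_iff_exists_subset.1 h1
    have h2 := hL2 S (hm S hS.le)
    rw [inter_eq_self_of_subset_right hSL] at h2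
    have h3 : #S ≤ ℵ₀ := Cardinal.mk_le_aleph0_iff.2 h2.to_subtype
    rw [hS] at h3
    exact absurd h3 (not_le.2 (by rw [← Cardinal.succ_aleph0]; exact Order.lt_succ _))

end Pool.Agent.V7H73.DW
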